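import Mathlib
import Pool.Agent.Helper25.Expo

/-!
# SGP: primes outside the semigroup generated by two coprime integers (definitions)
-/

set_option autoImplicit false

namespace Pool.Agent.SGP

open Finset Filter

/-- `n` lies outside the semigroup generated by `a` and `b` -/
def Out (a b n : ℕ) : Prop := ¬ ∃ u v : ℕ, n = a * u + b * v

/-- the number of primes outside the semigroup -/
noncomputable def piStar (a b : ℕ) : ℕ := {p : ℕ | p.Prime ∧ Out a b p}.ncard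

/-- the residue `v` in `[0, a)` with `n ≡ b v (mod a)` -/
noncomputable def vv (a b n : ℕ) : ℕ := ((n : ZMod a) * (b : ZMod a)⁻¹).val

/-- `∑_{n ≤ Y, n < b v(n)} Λ(n)` -/
noncomputable def PsiOut (a b Y : ℕ) : ℝ :=
  ∑ n ∈ (range (Y + 1)).filter (fun n => n < b * vv a b n), ArithmeticFunction.vonMangoldt n

/-- `∑_{p ≤ Y, p < b v(p)} log p` over primes `p` -/
noncomputable def ThOut (a b Y : ℕ) : ℝ :=
  ∑ n ∈ (range (Y + 1)).filter (fun n => n.Prime ∧ n < b * vv a b n), Real.log n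

/-- `∑_{n ≤ M, v(n) ≥ K} Λ(n)` -/
noncomputable def PsiGe (a b M K : ℕ) : ℝ :=
  ∑ n ∈ (range (M + 1)).filter (fun n => K ≤ vv a b n), ArithmeticFunction.vonMangoldt n

/-- `∑_{n ≤ M} Λ(n)` -/
noncomputable def Psi (M : ℕ) : ℝ := ∑ n ∈ range (M + 1), ArithmeticFunction.vonMangoldt n

/-- the two lower bounds for `PsiOut` -/
def Bounds (a b : ℕ) (ε : ℝ) : Prop :=
  (a * b : ℝ) / 2 - ε * (a * b : ℝ) / Real.log (a * b : ℝ) ≤ PsiOut a b (a * b) ∧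
  (1 / 4 + 1 / (2 * (a : ℝ)) - ε) * (a * b : ℝ) ≤ PsiOut a b (a * b / 2)

/-- the case of small `a` -/
def St_Small : Prop := ∀ (B : ℕ) (ε : ℝ), 0 < ε → ∃ X : ℕ, ∀ a b : ℕ, 3 ≤ a → a < b →
  a.Coprime b → X ≤ a * b → (a : ℝ) ≤ Real.log (a * b : ℝ) ^ B → Bounds a b ε

/-- equidistribution of `v(n)` for large `a` -/
def St_D : Prop := ∃ B X : ℕ, ∀ a b : ℕ, 3 ≤ a → a < b → a.Coprime b → X ≤ a * b →
  Real.log (a * b : ℝ) ^ B ≤ (a : ℝ) → ∀ M K : ℕ, M ≤ a * b → K ≤ a →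
  |PsiGe a b M K - (1 - (K : ℝ) / a) * Psi M| ≤ (a * b : ℝ) / Real.log (a * b : ℝ) ^ 5

/-- the case of large `a` -/
def St_Large : Prop := ∃ B : ℕ, ∀ ε : ℝ, 0 < ε → ∃ X : ℕ, ∀ a b : ℕ, 3 ≤ a → a < b →
  a.Coprime b → X ≤ a * b → Real.log (a * b : ℝ) ^ B ≤ (a : ℝ) → Bounds a b ε

/-- the inequality of Q1 -/
def Ineq (a b : ℕ) : Prop :=
  (a : ℝ) / (2 * ((a : ℝ) - 1)) * (((a : ℝ) * b - a - b) / Real.log ((a : ℝ) * b - a - b)) <
    (piStar a b : ℝ)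

end Pool.Agent.SGP
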