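import Mathlib

/-!
# SGP [S10]: the final numerical inequality
-/

set_option autoImplicit false

namespace Pool.Agent.SGP

open Finset Filter

theorem s10_ev : ∃ X : ℕ, ∀ n : ℕ, X ≤ n → 100 ≤ Real.log n ∧
    2 * Real.log n ^ 2 + 2 * Real.log n ≤ 1 / 1000 * √(n : ℝ) := by
  have h1 : Tendsto (fun n : ℕ => (n : ℝ)) atTop atTop := tendsto_natCast_atTop_atTop
  have h2 : Tendsto (fun n : ℕ => √(n : ℝ)) atTop atTop := Real.tendsto_sqrt_atTop.comp h1
  have e1 : ∀ᶠ n : ℕ in atTop, 100 ≤ Real.log n :=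
    (Real.tendsto_log_atTop.comp h1).eventually_ge_atTop 100
  have e2 : ∀ᶠ y : ℝ in atTop, ‖Real.log y ^ 2‖ ≤ 1 / 16000 * ‖y‖ :=
    (Real.isLittleO_pow_log_id_atTop (n := 2)).bound (by norm_num)
  have e3 : ∀ᶠ y : ℝ in atTop, ‖Real.log y ^ 1‖ ≤ 1 / 16000 * ‖y‖ :=
    (Real.isLittleO_pow_log_id_atTop (n := 1)).bound (by norm_num)
  have e4 := h2.eventually (e2.and e3)
  obtain ⟨X, hX⟩ := eventually_atTop.mp (e1.and (e4.and (h1.eventually_ge_atTop 1)))
  refine ⟨X, fun n hn => ?_⟩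
  obtain ⟨f1, ⟨f2, f3⟩, f4⟩ := hX n hn
  have h0 : (0 : ℝ) ≤ n := by linarith
  have g1 : Real.log (√(n : ℝ)) = Real.log n / 2 := Real.log_sqrt h0
  have g0 : 0 ≤ √(n : ℝ) := Real.sqrt_nonneg _
  rw [g1, Real.norm_of_nonneg g0, Real.norm_of_nonneg (by positivity)] at f2 f3
  refine ⟨f1, ?_⟩
  nlinarith

theorem s10_core {x L s T₁ T₂ c l k : ℝ} (hx : 0 < x) (hL : 100 ≤ L) (hs : s * s = x)
    (hs0 : 0 ≤ s) (hsm : 2 * L ^ 2 + 2 * L ≤ 1 / 1000 * s)
    (h1 : x / 2 - 1 / 1000 * x / L - 2 * s * L ≤ T₁)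
    (h2 : (c - 1 / 1000) * x - 2 * s * L ≤ T₂)
    (hc : k ≤ Real.log 2 * (c - 1 / 1000) - 2 / 1000) (hk : l * k < (k - l / 2) * 100)
    (hk0 : l / 2 ≤ k) (hl : l ≤ 1) :
    x / 2 / (L - l) < T₁ / L + Real.log 2 * T₂ / L ^ 2 := by
  have hL0 : 0 < L := by linarith
  have hl2 : 0 < Real.log 2 := Real.log_pos (by norm_num)
  have hl3 : Real.log 2 < 1 := by
    have := Real.log_two_lt_d9
    linarith
  have e1 : T₁ / L + Real.log 2 * T₂ / L ^ 2 = (T₁ * L + Real.log 2 * T₂) / L ^ 2 := by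
    field_simp
  have g1 : x * L / 2 - 1 / 1000 * x - 2 * s * L ^ 2 ≤ T₁ * L := by
    have := mul_le_mul_of_nonneg_right h1 hL0.le
    have e : (x / 2 - 1 / 1000 * x / L - 2 * s * L) * L =
        x * L / 2 - 1 / 1000 * x - 2 * s * L ^ 2 := by
      field_simp
    rwa [e] at this
  have g2 : Real.log 2 * ((c - 1 / 1000) * x - 2 * s * L) ≤ Real.log 2 * T₂ :=
    mul_le_mul_of_nonneg_left h2 hl2.le
  have g3 : s * (2 * L ^ 2 + 2 * L) ≤ x / 1000 := by
    have := mul_le_mul_of_nonneg_left hsm hs0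
    nlinarith
  have g4 : Real.log 2 * (2 * s * L) ≤ 2 * s * L := by
    have : 0 ≤ 2 * s * L := by positivity
    nlinarith
  have g5 : k * x ≤ (Real.log 2 * (c - 1 / 1000) - 2 / 1000) * x :=
    mul_le_mul_of_nonneg_right hc hx.le
  have g6 : x * (L / 2 + k) ≤ T₁ * L + Real.log 2 * T₂ := by
    nlinarith
  rw [e1, div_lt_div_iff₀ (by linarith) (by positivity)]
  have g7 : x * (L / 2 + k) * (L - l) ≤ (T₁ * L + Real.log 2 * T₂) * (L - l) :=
    mul_le_mul_of_nonneg_right g6 (by linarith)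
  have g8 : (k - l / 2) * 100 ≤ (k - l / 2) * L :=
    mul_le_mul_of_nonneg_left hL (by linarith)
  have g9 : L ^ 2 / 2 < (L / 2 + k) * (L - l) := by nlinarith
  have g10 : x * (L ^ 2 / 2) < x * ((L / 2 + k) * (L - l)) := mul_lt_mul_of_pos_left g9 hx
  nlinarith

theorem s10_lhs {a b l L : ℝ} (ha : 3 ≤ a) (hb : a + 1 ≤ b) (hL : L = Real.log (a * b))
    (hlL : l < L) (hl : a * b ≤ Real.exp l * (a * b - a - b)) :
    a / (2 * (a - 1)) * ((a * b - a - b) / Real.log (a * b - a - b)) ≤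
      a * b / 2 / (L - l) := by
  have hS : 0 < a * b - a - b := by nlinarith
  have hx : 0 < a * b := by nlinarith
  have h1 : L - l ≤ Real.log (a * b - a - b) := by
    have h2 := Real.log_le_log hx hl
    rw [Real.log_mul (Real.exp_pos l).ne' hS.ne', Real.log_exp] at h2
    linarith
  have h3 : a / (2 * (a - 1)) * (a * b - a - b) ≤ a * b / 2 := by
    rw [div_mul_eq_mul_div, div_le_div_iff₀ (by linarith) (by norm_num)]
    nlinarith
  rw [← mul_div_assoc]
  exact div_le_div₀ (by positivity) h3 (by linarith) h1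

theorem final_num : ∃ X : ℕ, ∀ a b : ℕ, 3 ≤ a → a < b → X ≤ a * b → ∀ T₁ T₂ : ℝ,
    (a * b : ℝ) / 2 - 1 / 1000 * (a * b : ℝ) / Real.log (a * b : ℝ) -
      2 * √(a * b : ℝ) * Real.log (a * b : ℝ) ≤ T₁ →
    (1 / 4 + 1 / (2 * (a : ℝ)) - 1 / 1000) * (a * b : ℝ) -
      2 * √(a * b : ℝ) * Real.log (a * b : ℝ) ≤ T₂ →
    (a : ℝ) / (2 * ((a : ℝ) - 1)) * (((a : ℝ) * b - a - b) / Real.log ((a : ℝ) * b - a - b)) <
      T₁ / Real.log (a * b : ℝ) + Real.log 2 * T₂ / Real.log (a * b : ℝ) ^ 2 := by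
  obtain ⟨X, hX⟩ := s10_ev
  refine ⟨X + 1000, ?_⟩
  intro a b ha hab hXab T₁ T₂ h1 h2
  obtain ⟨hL, hsm⟩ := hX (a * b) (by omega)
  push_cast at hL hsm
  have ha' : (3 : ℝ) ≤ a := by exact_mod_cast ha
  have hb' : (a : ℝ) + 1 ≤ b := by exact_mod_cast hab
  have hx : (1000 : ℝ) ≤ (a : ℝ) * b := by
    have : 1000 ≤ a * b := by omega
    exact_mod_cast this
  have hx0 : (0 : ℝ) < (a : ℝ) * b := by linarith
  have hs : √((a : ℝ) * b) * √((a : ℝ) * b) = (a : ℝ) * b := Real.mul_self_sqrt hx0.le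
  have hl2 := Real.log_two_gt_d9
  rcases Nat.lt_or_ge 3 a with h3 | h3
  · -- `a ≥ 4`
    have ha4 : (4 : ℝ) ≤ a := by exact_mod_cast h3
    have hexp : (1.3712 : ℝ) ≤ Real.exp 0.32 := by
      have := Real.quadratic_le_exp_of_nonneg (x := 0.32) (by norm_num)
      norm_num at this ⊢
      linarith
    have hS : 0 < (a : ℝ) * b - a - b := by nlinarith
    have key : (a : ℝ) * b ≤ 1.3712 * ((a : ℝ) * b - a - b) := by
      rcases Nat.lt_or_ge a 7 with h7 | h7
      · have h6 : a ≤ 6 := by omega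
        interval_cases a
        · push_cast at hx ⊢
          linarith
        · push_cast at hx ⊢
          linarith
        · push_cast at hx ⊢
          linarith
      · have ha7 : (7 : ℝ) ≤ a := by exact_mod_cast h7
        have hb8 : (8 : ℝ) ≤ b := by linarith
        have := mul_nonneg (sub_nonneg.mpr ha7) (sub_nonneg.mpr hb8)
        nlinarith
    refine (s10_lhs (l := 0.32) ha' hb' rfl (by linarith) ?_).trans_lt ?_
    · exact key.trans (mul_le_mul_of_nonneg_right hexp hS.le)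
    · refine s10_core (k := 0.163) (c := 1 / 4 + 1 / (2 * (a : ℝ))) hx0 hL hs
        (Real.sqrt_nonneg _) hsm h1 h2 ?_ (by norm_num) (by norm_num) (by norm_num)
      have : (0 : ℝ) ≤ 1 / (2 * (a : ℝ)) := by positivity
      nlinarith
  · -- `a = 3`
    have ha3 : a = 3 := by omega
    subst ha3
    push_cast at *
    have hexp : (1.625 : ℝ) ≤ Real.exp 0.5 := by
      have := Real.quadratic_le_exp_of_nonneg (x := 0.5) (by norm_num)
      norm_num at this ⊢
      linarith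
    have hS : 0 < (3 : ℝ) * b - 3 - b := by nlinarith
    have key : (3 : ℝ) * b ≤ 1.625 * ((3 : ℝ) * b - 3 - b) := by linarith
    refine (s10_lhs (l := 0.5) ha' hb' rfl (by linarith) ?_).trans_lt ?_
    · exact key.trans (mul_le_mul_of_nonneg_right hexp hS.le)
    · refine s10_core (k := 0.26) (c := 1 / 4 + 1 / (2 * 3)) hx0 hL hs
        (Real.sqrt_nonneg _) hsm h1 h2 ?_ (by norm_num) (by norm_num) (by norm_num)
      norm_num at hl2 ⊢
      linarith

end Pool.Agent.SGP
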