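import Pool.Agent.SGP.Defs

/-!
# SGP [S3]: prime powers are negligible
-/

set_option autoImplicit false

namespace Pool.Agent.SGP

open Finset Filter

theorem thOut_ge (a b Y : ℕ) (hY : 1 ≤ Y) :
    PsiOut a b Y - 2 * √(Y : ℝ) * Real.log (Y : ℝ) ≤ ThOut a b Y := by
  have h1 : Chebyshev.psi (Y : ℝ) - Chebyshev.theta (Y : ℝ) ≤ 2 * √(Y : ℝ) * Real.log (Y : ℝ) :=
    Chebyshev.psi_sub_theta_le (by exact_mod_cast hY)
  rw [Chebyshev.psi_sub_theta_eq_sum_not_prime, Nat.floor_natCast] at h1
  have h2 : PsiOut a b Y - ThOut a b Y ≤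
      ∑ n ∈ Ioc 0 Y with ¬n.Prime, ArithmeticFunction.vonMangoldt n := by
    unfold PsiOut ThOut
    have h3 : ∑ n ∈ (range (Y + 1)).filter (fun n => n < b * vv a b n),
        ArithmeticFunction.vonMangoldt n =
        ∑ n ∈ ((range (Y + 1)).filter (fun n => n < b * vv a b n)).filter (fun n => n.Prime),
          ArithmeticFunction.vonMangoldt n +
        ∑ n ∈ ((range (Y + 1)).filter (fun n => n < b * vv a b n)).filter (fun n => ¬ n.Prime),
          ArithmeticFunction.vonMangoldt n :=
      (Finset.sum_filter_add_sum_filter_not _ _ _).symm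
    have h4 : ((range (Y + 1)).filter (fun n => n < b * vv a b n)).filter (fun n => n.Prime) =
        (range (Y + 1)).filter (fun n => n.Prime ∧ n < b * vv a b n) := by
      ext n
      simp only [Finset.mem_filter]
      tauto
    have h5 : ∑ n ∈ (range (Y + 1)).filter (fun n => n.Prime ∧ n < b * vv a b n),
        ArithmeticFunction.vonMangoldt n =
        ∑ n ∈ (range (Y + 1)).filter (fun n => n.Prime ∧ n < b * vv a b n), Real.log n := by
      apply Finset.sum_congr rfl
      intro n hn
      rw [Finset.mem_filter] at hn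
      exact ArithmeticFunction.vonMangoldt_apply_prime hn.2.1
    rw [h3, h4, h5, add_sub_cancel_left]
    apply Finset.sum_le_sum_of_subset_of_nonneg
    · intro n hn
      simp only [Finset.mem_filter, Finset.mem_range, Finset.mem_Ioc] at hn ⊢
      refine ⟨⟨?_, by omega⟩, hn.2⟩
      rcases Nat.eq_zero_or_pos n with h | h
      · exfalso
        subst h
        have h6 := hn.1.2
        simp [vv] at h6
      · exact h
    · intro n _ _
      exact ArithmeticFunction.vonMangoldt_nonneg
  linarith

end Pool.Agent.SGP
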