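import Mathlib

/-!
# SGP [S4a]: sums over reduced residues
-/

set_option autoImplicit false

namespace Pool.Agent.SGP

open Finset Filter

theorem s4a_mem {a : ℕ} (ha : 2 ≤ a) {v : ℕ}
    (hv : v ∈ (range a).filter (fun v => a.Coprime v)) :
    1 ≤ v ∧ v < a ∧ a - v ∈ (range a).filter (fun v => a.Coprime v) := by
  rw [mem_filter, mem_range] at hv
  obtain ⟨h1, h2⟩ := hv
  have h3 : v ≠ 0 := by
    rintro rfl
    rw [Nat.coprime_zero_right] at h2
    omega
  refine ⟨by omega, h1, ?_⟩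
  rw [mem_filter, mem_range]
  exact ⟨by omega, (Nat.coprime_self_sub_right h1.le).mpr h2⟩

theorem s4a_refl {a : ℕ} (ha : 2 ≤ a) (f : ℕ → ℝ) :
    ∑ v ∈ (range a).filter (fun v => a.Coprime v), f (a - v) =
      ∑ v ∈ (range a).filter (fun v => a.Coprime v), f v := by
  apply Finset.sum_nbij' (fun v => a - v) (fun v => a - v)
  · intro v hv
    exact (s4a_mem ha hv).2.2
  · intro v hv
    exact (s4a_mem ha hv).2.2
  · intro v hv
    have h1 := s4a_mem ha hv
    show a - (a - v) = v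
    omega
  · intro v hv
    have h1 := s4a_mem ha hv
    show a - (a - v) = v
    omega
  · intro v hv
    rfl

theorem s4a_card (a : ℕ) :
    (((range a).filter (fun v => a.Coprime v)).card : ℝ) = a.totient := by
  rw [Nat.totient_eq_card_coprime]

theorem sum_cop (a : ℕ) (ha : 2 ≤ a) :
    ∑ v ∈ (range a).filter (fun v => a.Coprime v), (v : ℝ) = (a : ℝ) * a.totient / 2 := by
  have h1 := s4a_refl ha (fun v => (v : ℝ))
  have h2 : ∑ v ∈ (range a).filter (fun v => a.Coprime v), ((v : ℝ) + ((a - v : ℕ) : ℝ)) =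
      (a : ℝ) * a.totient := by
    have h3 : ∀ v ∈ (range a).filter (fun v => a.Coprime v),
        ((v : ℝ) + ((a - v : ℕ) : ℝ)) = a := by
      intro v hv
      have h4 := (s4a_mem ha hv).2.1
      rw [Nat.cast_sub h4.le]
      ring
    rw [sum_congr rfl h3, sum_const, nsmul_eq_mul, s4a_card, mul_comm]
  rw [sum_add_distrib, h1] at h2
  linarith

theorem sum_min_cop (a : ℕ) (ha : 2 ≤ a) (b : ℝ) (hb : 0 ≤ b) :
    (a.totient : ℝ) * (a * b / 4 + b / 2) ≤
      ∑ v ∈ (range a).filter (fun v => a.Coprime v), min (a * b / 2) (b * v) := by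
  have h1 := s4a_refl ha (fun v => min ((a : ℝ) * b / 2) (b * (v : ℝ)))
  have h2 : ∑ v ∈ (range a).filter (fun v => a.Coprime v), ((a : ℝ) * b / 2 + b) ≤
      ∑ v ∈ (range a).filter (fun v => a.Coprime v),
        (min ((a : ℝ) * b / 2) (b * (v : ℝ)) + min ((a : ℝ) * b / 2) (b * ((a - v : ℕ) : ℝ))) := by
    apply sum_le_sum
    intro v hv
    obtain ⟨h3, h4, -⟩ := s4a_mem ha hv
    have h5 : (1 : ℝ) ≤ v := by exact_mod_cast h3
    have h6 : (v : ℝ) + 1 ≤ a := by exact_mod_cast h4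
    rw [Nat.cast_sub h4.le]
    rcases le_total ((v : ℝ)) ((a : ℝ) / 2) with h7 | h7
    · rw [min_eq_right (by nlinarith), min_eq_left (by nlinarith)]
      nlinarith
    · rw [min_eq_left (by nlinarith), min_eq_right (by nlinarith)]
      nlinarith
  rw [sum_const, nsmul_eq_mul, s4a_card, sum_add_distrib, h1] at h2
  linarith

end Pool.Agent.SGP
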