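import Pool.Agent.SGP.S1
import Pool.Agent.SGP.S4a
import Pool.Agent.BVX.A9

/-!
# SGP [S4]: the case of small `a` (Siegel-Walfisz)
-/

set_option autoImplicit false

namespace Pool.Agent.SGP

open Finset Filter

/-- grouping by the residue -/
theorem s4_group (a b Y : ℕ) (ha : 1 ≤ a) (hb : 1 ≤ b) (h : a.Coprime b)
    (h0 : ∀ v ∈ (range a).filter (fun v => a.Coprime v), 1 ≤ v) :
    ∑ v ∈ (range a).filter (fun v => a.Coprime v),
      ∑ n ∈ (range (min Y (b * v - 1) + 1)).filter (fun n => n % a = (b * v) % a),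
        ArithmeticFunction.vonMangoldt n ≤ PsiOut a b Y := by
  have e1 : ∀ v ∈ (range a).filter (fun v => a.Coprime v),
      ∑ n ∈ (range (min Y (b * v - 1) + 1)).filter (fun n => n % a = (b * v) % a),
        ArithmeticFunction.vonMangoldt n =
      ∑ n ∈ range (Y + 1), if (n < b * vv a b n ∧ vv a b n = v) then
        ArithmeticFunction.vonMangoldt n else 0 := by
    intro v hv
    have hv1 := h0 v hv
    have hv2 : v < a := mem_range.1 (mem_filter.1 hv).1
    have hbv : 1 ≤ b * v := Nat.mul_pos hb hv1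
    rw [← sum_filter]
    refine sum_congr ?_ fun _ _ => rfl
    ext n
    rw [mem_filter, mem_filter, mem_range, mem_range, ← vv_eq_iff a b n v ha h hv2]
    constructor
    · rintro ⟨h1, h2⟩
      rw [h2]
      have h3 : n ≤ min Y (b * v - 1) := Nat.lt_succ_iff.1 h1
      have h4 := h3.trans (min_le_left _ _)
      have h5 := h3.trans (min_le_right _ _)
      exact ⟨by omega, by omega, rfl⟩
    · rintro ⟨h1, h2, h3⟩
      rw [h3] at h2
      refine ⟨?_, h3⟩
      have h4 : n ≤ min Y (b * v - 1) := le_min (by omega) (by omega)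
      omega
  rw [sum_congr rfl e1, sum_comm]
  unfold PsiOut
  rw [sum_filter]
  refine sum_le_sum fun n _ => ?_
  have hnn : (0 : ℝ) ≤ ArithmeticFunction.vonMangoldt n := ArithmeticFunction.vonMangoldt_nonneg
  by_cases h1 : n < b * vv a b n
  · rw [if_pos h1]
    by_cases h2 : vv a b n ∈ (range a).filter (fun v => a.Coprime v)
    · rw [sum_eq_single (vv a b n)]
      · rw [if_pos ⟨h1, rfl⟩]
      · intro v _ hv
        rw [if_neg fun h => hv h.2.symm]
      · intro h; exact absurd h2 h
    · rw [sum_eq_zero]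
      · exact hnn
      · intro v hv
        rw [if_neg]
        rintro ⟨-, h3⟩
        rw [← h3] at hv
        exact h2 hv
  · rw [if_neg h1, sum_eq_zero]
    intro v _
    rw [if_neg fun h => h1 h.1]

/-- the lower bound before the choice of `Y` -/
theorem s4_lower (a b B Y N : ℕ) (ha : 3 ≤ a) (hab : a < b) (h : a.Coprime b)
    (hY : Y ≤ N) (hL : 1 ≤ Real.log N) (haB : (a : ℝ) ≤ Real.log N ^ B)
    (hsw : ∀ q r : ℕ, 1 ≤ q → (q : ℝ) ≤ Real.log N ^ B →
      r.Coprime q → ∀ M : ℕ, M ≤ N →
      |(∑ n ∈ (range (M + 1)).filter (fun n => n % q = r % q),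
        ArithmeticFunction.vonMangoldt n) -
        (M : ℝ) / (q.totient : ℝ)| ≤ N / Real.log N ^ (B + 2)) (c : ℝ)
    (hc : (a.totient : ℝ) * c ≤ ∑ v ∈ (range a).filter (fun v => a.Coprime v),
      min (Y : ℝ) ((b : ℝ) * v)) :
    c - 1 - N / Real.log N ^ 2 ≤ PsiOut a b Y := by
  have h0 : ∀ v ∈ (range a).filter (fun v => a.Coprime v), 1 ≤ v := fun v hv =>
    (s4a_mem (by omega) hv).1
  refine le_trans ?_ (s4_group a b Y (by omega) (by omega) h h0)
  have hφ1 : 1 ≤ a.totient := Nat.totient_pos.mpr (by omega)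
  have hφ : (0 : ℝ) < a.totient := by exact_mod_cast hφ1
  have h1 : ∀ v ∈ (range a).filter (fun v => a.Coprime v),
      (min (Y : ℝ) ((b : ℝ) * v) - 1) / a.totient - N / Real.log N ^ (B + 2) ≤
      ∑ n ∈ (range (min Y (b * v - 1) + 1)).filter (fun n => n % a = (b * v) % a),
        ArithmeticFunction.vonMangoldt n := by
    intro v hv
    have hv1 := h0 v hv
    have hbv : 1 ≤ b * v := Nat.mul_pos (by omega) hv1
    have hcop : (b * v).Coprime a :=
      Nat.Coprime.mul_left h.symm ((mem_filter.1 hv).2).symm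
    have h2 := (abs_le.1 (hsw a (b * v) (by omega) haB hcop (min Y (b * v - 1))
      ((min_le_left _ _).trans hY))).1
    have h3 : min (Y : ℝ) ((b : ℝ) * v) - 1 ≤ ((min Y (b * v - 1) : ℕ) : ℝ) := by
      rw [Nat.cast_min, Nat.cast_sub hbv]
      push_cast
      rw [sub_le_iff_le_add]
      rcases le_total (Y : ℝ) ((b : ℝ) * v - 1) with h4 | h4
      · rw [min_eq_left h4]
        exact (min_le_left _ _).trans (by linarith)
      · rw [min_eq_right h4]
        exact (min_le_right _ _).trans (by linarith)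
    have h4 : (min (Y : ℝ) ((b : ℝ) * v) - 1) / a.totient ≤
        ((min Y (b * v - 1) : ℕ) : ℝ) / a.totient := div_le_div_of_nonneg_right h3 hφ.le
    linarith
  refine le_trans ?_ (sum_le_sum h1)
  rw [sum_sub_distrib, ← sum_div, sum_sub_distrib, sum_const, sum_const, nsmul_eq_mul,
    nsmul_eq_mul, s4a_card, mul_one]
  have h5 : c ≤ (∑ v ∈ (range a).filter (fun v => a.Coprime v),
      min (Y : ℝ) ((b : ℝ) * v)) / a.totient := by
    rw [le_div_iff₀ hφ, mul_comm]
    exact hc
  have h6 : (a.totient : ℝ) * (N / Real.log N ^ (B + 2)) ≤ N / Real.log N ^ 2 := by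
    have h7 : (a.totient : ℝ) ≤ Real.log N ^ B := by
      refine le_trans ?_ haB
      exact_mod_cast Nat.totient_le a
    have hLp : 0 < Real.log N := by linarith
    have hN0 : (0 : ℝ) ≤ N := Nat.cast_nonneg N
    rw [pow_add, ← mul_div_assoc, div_le_div_iff₀ (by positivity) (by positivity)]
    have h8 : (a.totient : ℝ) * N * Real.log N ^ 2 ≤
        Real.log N ^ B * N * Real.log N ^ 2 := by
      have := mul_le_mul_of_nonneg_right h7 (mul_nonneg hN0 (sq_nonneg (Real.log N)))
      nlinarith
    nlinarith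
  rw [sub_div, div_self hφ.ne']
  linarith

theorem small : St_Small := by
  intro B ε hε
  have hlog : ∀ᶠ N : ℕ in atTop, max 1 (4 / ε) ≤ Real.log N := by
    have h1 := Real.tendsto_log_atTop.comp (tendsto_natCast_atTop_atTop (R := ℝ))
    exact h1.eventually_ge_atTop _
  have hlin : ∀ᶠ N : ℕ in atTop, Real.log N ≤ (ε / 8) * N := by
    have h := (Real.isLittleO_log_id_atTop).def (by positivity : (0 : ℝ) < ε / 8)
    have h' := tendsto_natCast_atTop_atTop (R := ℝ) |>.eventually h
    filter_upwards [h', eventually_ge_atTop 1] with N hN h1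
    have h2 : (1 : ℝ) ≤ N := by exact_mod_cast h1
    have h3 : 0 ≤ Real.log N := Real.log_nonneg h2
    rw [Real.norm_eq_abs, Real.norm_eq_abs, id, abs_of_nonneg h3,
      abs_of_nonneg (by linarith)] at hN
    exact hN
  obtain ⟨X, hX⟩ := eventually_atTop.1 ((BVX.sw_ap (B + 2) B).and (hlog.and hlin))
  refine ⟨X, fun a b ha hab hcop hXab haB => ?_⟩
  obtain ⟨hsw, hmax, hl2⟩ := hX (a * b) hXab
  obtain ⟨N, hN⟩ : ∃ N : ℕ, N = a * b := ⟨_, rfl⟩
  have hNr : (a : ℝ) * b = N := by rw [hN]; push_cast; ring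
  rw [← hN] at hsw hmax hl2
  rw [hNr] at haB
  have hL1 : 1 ≤ Real.log N := (le_max_left _ _).trans hmax
  have hL2 : 4 / ε ≤ Real.log N := (le_max_right _ _).trans hmax
  have hLp : 0 < Real.log N := by linarith
  have hN0 : (0 : ℝ) < N := by
    rw [← hNr]
    have h1 : (0 : ℝ) < a := by exact_mod_cast (by omega : 0 < a)
    have h2 : (0 : ℝ) < b := by exact_mod_cast (by omega : 0 < b)
    positivity
  have hφ1 : 1 ≤ a.totient := Nat.totient_pos.mpr (by omega)
  have hφ : (0 : ℝ) < a.totient := by exact_mod_cast hφ1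
  have ha0 : (0 : ℝ) < a := by exact_mod_cast (by omega : 0 < a)
  have hb0 : (0 : ℝ) < b := by exact_mod_cast (by omega : 0 < b)
  have herr : 2 + N / Real.log N ^ 2 ≤ ε * N / Real.log N := by
    have h1 : 2 ≤ ε / 4 * N / Real.log N := by
      rw [le_div_iff₀ hLp]
      linarith
    have h2 : (N : ℝ) / Real.log N ^ 2 ≤ ε / 4 * N / Real.log N := by
      rw [div_le_div_iff₀ (by positivity) hLp]
      have h3 : 1 ≤ ε / 4 * Real.log N := by
        rw [div_le_iff₀ hε] at hL2
        linarith
      nlinarith [mul_le_mul_of_nonneg_left h3 (mul_nonneg hN0.le hLp.le)]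
    have h4 : ε * N / Real.log N = ε / 4 * N / Real.log N + ε / 4 * N / Real.log N +
        ε / 2 * N / Real.log N := by ring
    have h5 : 0 ≤ ε / 2 * N / Real.log N := by positivity
    linarith
  have herr2 : ε * N / Real.log N ≤ ε * N := div_le_self (by positivity) hL1
  unfold Bounds
  rw [hNr, ← hN]
  constructor
  · have h1 := s4_lower a b B N N ha hab hcop le_rfl hL1 haB hsw ((N : ℝ) / 2) (by
      have h2 : ∀ v ∈ (range a).filter (fun v => a.Coprime v),
          min (N : ℝ) ((b : ℝ) * v) = b * v := by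
        intro v hv
        have h3 : (v : ℝ) ≤ a := by exact_mod_cast (mem_range.1 (mem_filter.1 hv).1).le
        rw [min_eq_right]
        rw [← hNr]
        nlinarith
      rw [sum_congr rfl h2, ← mul_sum, sum_cop a (by omega), ← hNr]
      apply le_of_eq
      ring)
    linarith
  · have hY : ((N / 2 : ℕ) : ℝ) ≥ (N : ℝ) / 2 - 1 := by
      have h2 : N < 2 * (N / 2) + 2 := by omega
      have h3 : (N : ℝ) < 2 * ((N / 2 : ℕ) : ℝ) + 2 := by exact_mod_cast h2
      linarith
    have h1 := s4_lower a b B (N / 2) N ha hab hcop (Nat.div_le_self _ _) hL1 haB hsw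
      ((a : ℝ) * b / 4 + b / 2 - 1) (by
      have h2 := sum_min_cop a (by omega) b hb0.le
      have h3 : ∑ v ∈ (range a).filter (fun v => a.Coprime v),
          (min ((a : ℝ) * b / 2) (b * v) - 1) ≤
          ∑ v ∈ (range a).filter (fun v => a.Coprime v),
            min ((N / 2 : ℕ) : ℝ) ((b : ℝ) * v) := by
        refine sum_le_sum fun v _ => ?_
        rw [hNr]
        apply le_min
        · exact (sub_le_sub_right (min_le_left _ _) 1).trans hY
        · exact (sub_le_sub_right (min_le_right _ _) 1).trans (by linarith)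
      rw [sum_sub_distrib, sum_const, nsmul_eq_mul, s4a_card, mul_one] at h3
      linarith)
    have h4 : (1 / 4 + 1 / (2 * (a : ℝ)) - ε) * N = (a : ℝ) * b / 4 + b / 2 - ε * N := by
      rw [← hNr]
      field_simp
    rw [h4]
    linarith

end Pool.Agent.SGP
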