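import Mathlib
import Pool.Agent.Helper25.Expo

/-!
# SGP [S5]: finite Fourier expansion of an interval modulo `a`
-/

set_option autoImplicit false

namespace Pool.Agent.SGP

open Finset Filter Pool.Agent.Helper25

lemma s5_sin_ge {t : ℝ} (h0 : 0 ≤ t) (h1 : t ≤ 1) :
    2 * min t (1 - t) ≤ Real.sin (Real.pi * t) := by
  have hpi := Real.pi_pos
  rcases le_total t (1 / 2) with h | h
  · have h2 := Real.mul_le_sin (x := Real.pi * t) (by positivity) (by nlinarith)
    have h3 : 2 / Real.pi * (Real.pi * t) = 2 * t := by field_simp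
    rw [h3] at h2
    exact (mul_le_mul_of_nonneg_left (min_le_left _ _) (by norm_num)).trans h2
  · have h2 := Real.mul_le_sin (x := Real.pi * (1 - t)) (by nlinarith) (by nlinarith)
    have h3 : 2 / Real.pi * (Real.pi * (1 - t)) = 2 * (1 - t) := by field_simp
    have h4 : Real.sin (Real.pi * (1 - t)) = Real.sin (Real.pi * t) := by
      rw [← Real.sin_pi_sub]
      congr 1
      ring
    rw [h3, h4] at h2
    exact (mul_le_mul_of_nonneg_left (min_le_right _ _) (by norm_num)).trans h2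

lemma s5_sin_pos {t : ℝ} (h0 : 0 < t) (h1 : t < 1) : 0 < Real.sin (Real.pi * t) :=
  lt_of_lt_of_le (mul_pos (by norm_num) (lt_min h0 (by linarith))) (s5_sin_ge h0.le h1.le)

/-- orthogonality -/
lemma s5_orth (a : ℕ) (ha : 2 ≤ a) (v w : ℕ) (hv : v < a) (hw : w < a) :
    ∑ h ∈ range a, ex (((v : ℝ) - w) / a * h) = if v = w then (a : ℂ) else 0 := by
  have ha0 : (0 : ℝ) < a := by exact_mod_cast (by omega : 0 < a)
  split_ifs with hvw
  · subst hvw
    simp [ex_zero]
  · set β : ℝ := ((v : ℝ) - w) / a with hβ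
    have hne : ex β - 1 ≠ 0 := by
      rw [← norm_ne_zero_iff, norm_ex_sub_one]
      have hs : Real.sin (Real.pi * β) ≠ 0 := by
        rcases lt_or_gt_of_ne hvw with h | h
        · have h1 : (v : ℝ) < w := by exact_mod_cast h
          have h2 : (w : ℝ) < a := by exact_mod_cast hw
          have h3 : (0 : ℝ) ≤ v := Nat.cast_nonneg v
          have h4 := s5_sin_pos (t := -β) (by rw [hβ, ← neg_div]; apply div_pos <;> linarith)
            (by rw [hβ, ← neg_div, div_lt_one ha0]; linarith)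
          rw [mul_neg, Real.sin_neg] at h4
          linarith
        · have h1 : (w : ℝ) < v := by exact_mod_cast h
          have h2 : (v : ℝ) < a := by exact_mod_cast hv
          have h3 : (0 : ℝ) ≤ w := Nat.cast_nonneg w
          have h4 := s5_sin_pos (t := β) (by rw [hβ]; apply div_pos <;> linarith)
            (by rw [hβ, div_lt_one ha0]; linarith)
          exact h4.ne'
      have := abs_pos.2 hs
      positivity
    have h1 : ∑ h ∈ range a, ex (β * h) = ∑ h ∈ range a, ex β ^ h :=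
      Finset.sum_congr rfl (fun i _ => ex_nat_mul i β)
    have h2 : (∑ h ∈ range a, ex β ^ h) * (ex β - 1) = ex β ^ a - 1 := geom_sum_mul _ _
    have h3 : ex β ^ a = 1 := by
      rw [← ex_nat_mul]
      have e : β * a = (((v : ℤ) - (w : ℤ) : ℤ) : ℝ) := by
        rw [hβ, div_mul_cancel₀ _ ha0.ne']
        push_cast
        ring
      rw [e]
      exact ex_int _
    rw [h3, sub_self] at h2
    rw [h1]
    exact (mul_eq_zero.1 h2).resolve_right hne

/-- the coefficients -/
noncomputable def s5_c (a K h : ℕ) : ℂ :=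
  (1 / (a : ℂ)) * ∑ i ∈ range (a - K), ex (-((h : ℝ) / a) * ((K : ℝ) + i))

lemma s5_c_zero (a K : ℕ) (hK : K ≤ a) : s5_c a K 0 = ((a : ℂ) - K) / a := by
  unfold s5_c
  have e : ∀ i ∈ range (a - K), ex (-(((0 : ℕ) : ℝ) / a) * ((K : ℝ) + i)) = 1 := by
    intro i _
    rw [Nat.cast_zero, zero_div, neg_zero, zero_mul, ex_zero]
  rw [Finset.sum_congr rfl e, Finset.sum_const, card_range, nsmul_eq_mul, mul_one,
    Nat.cast_sub hK]
  ring

lemma s5_c_norm (a K h : ℕ) (ha : 2 ≤ a) (h1 : 1 ≤ h) (h2 : h < a) :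
    ‖s5_c a K h‖ ≤ 1 / (2 * min (h : ℝ) ((a : ℝ) - h)) := by
  have ha0 : (0 : ℝ) < a := by exact_mod_cast (by omega : 0 < a)
  have hh0 : (0 : ℝ) < h := by exact_mod_cast (by omega : 0 < h)
  have hha : (h : ℝ) < a := by exact_mod_cast h2
  set t : ℝ := (h : ℝ) / a with ht
  have ht0 : 0 < t := div_pos hh0 ha0
  have ht1 : t < 1 := (div_lt_one ha0).2 hha
  have hsin := s5_sin_pos ht0 ht1
  have hge := s5_sin_ge ht0.le ht1.le
  have hmin : min t (1 - t) = min (h : ℝ) ((a : ℝ) - h) / a := by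
    have e1 : 1 - t = ((a : ℝ) - h) / a := by
      rw [ht]
      field_simp
    rw [e1, ht]
    exact (min_div_div_right ha0.le _ _)
  have hm0 : 0 < min (h : ℝ) ((a : ℝ) - h) := lt_min hh0 (by linarith)
  have hs : Real.sin (Real.pi * (-t)) ≠ 0 := by
    rw [mul_neg, Real.sin_neg]
    exact neg_ne_zero.2 hsin.ne'
  have e : ∑ i ∈ range (a - K), ex (-t * ((K : ℝ) + i)) =
      ex (-t * K) * ∑ i ∈ range (a - K), ex (-t * i) := by
    rw [mul_sum]
    refine sum_congr rfl fun i _ => ?_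
    rw [← ex_add, ← mul_add]
  have hb := geom_le hs (a - K)
  rw [mul_neg, Real.sin_neg, abs_neg, abs_of_pos hsin] at hb
  unfold s5_c
  rw [← ht, e, norm_mul, norm_mul, norm_ex, one_mul, norm_div, norm_one, Complex.norm_natCast]
  calc 1 / (a : ℝ) * ‖∑ i ∈ range (a - K), ex (-t * i)‖
      ≤ 1 / (a : ℝ) * (1 / Real.sin (Real.pi * t)) :=
        mul_le_mul_of_nonneg_left hb (by positivity)
    _ ≤ 1 / (a : ℝ) * (1 / (2 * (min (h : ℝ) ((a : ℝ) - h) / a))) := by
        refine mul_le_mul_of_nonneg_left ?_ (by positivity)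
        rw [hmin] at hge
        exact one_div_le_one_div_of_le (by positivity) hge
    _ = 1 / (2 * min (h : ℝ) ((a : ℝ) - h)) := by
        field_simp

lemma s5_expand (a K : ℕ) (ha : 2 ≤ a) (hK : K ≤ a) (v : ℕ) (hv : v < a) :
    (if K ≤ v then (1 : ℂ) else 0) = ∑ h ∈ range a, s5_c a K h * ex (h * v / a) := by
  have ha0 : (a : ℂ) ≠ 0 := by exact_mod_cast (by omega : a ≠ 0)
  have har : (a : ℝ) ≠ 0 := by exact_mod_cast (by omega : a ≠ 0)
  have e1 : ∀ h : ℕ, s5_c a K h * ex (h * v / a) =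
      (1 / (a : ℂ)) * ∑ i ∈ range (a - K), ex (((v : ℝ) - ((K + i : ℕ) : ℝ)) / a * h) := by
    intro h
    unfold s5_c
    rw [mul_assoc, sum_mul]
    congr 1
    refine sum_congr rfl fun i _ => ?_
    rw [← ex_add]
    congr 1
    push_cast
    field_simp
    ring
  simp only [e1]
  rw [← mul_sum, sum_comm]
  have e2 : ∀ i ∈ range (a - K), ∑ h ∈ range a, ex (((v : ℝ) - ((K + i : ℕ) : ℝ)) / a * h) =
      if v = K + i then (a : ℂ) else 0 := by
    intro i hi
    have hi' : K + i < a := by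
      have := mem_range.1 hi
      omega
    exact s5_orth a ha v (K + i) hv hi'
  rw [sum_congr rfl e2]
  by_cases hKv : K ≤ v
  · rw [if_pos hKv, sum_eq_single (v - K)]
    · rw [if_pos (by omega)]
      field_simp
    · intro i _ hi
      rw [if_neg (by omega)]
    · intro hn
      exact absurd (mem_range.2 (by omega)) hn
  · rw [if_neg hKv, sum_eq_zero, mul_zero]
    intro i _
    rw [if_neg (by omega)]

theorem interval_coeff (a K : ℕ) (ha : 2 ≤ a) (hK : K ≤ a) : ∃ c : ℕ → ℂ,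
    c 0 = ((a : ℂ) - K) / a ∧
    (∀ h : ℕ, 1 ≤ h → h < a → ‖c h‖ ≤ 1 / (2 * min (h : ℝ) ((a : ℝ) - h))) ∧
    ∀ v : ℕ, v < a → (if K ≤ v then (1 : ℂ) else 0) = ∑ h ∈ range a, c h * ex (h * v / a) :=
  ⟨s5_c a K, s5_c_zero a K hK, fun h h1 h2 => s5_c_norm a K h ha h1 h2,
    fun v hv => s5_expand a K ha hK v hv⟩

end Pool.Agent.SGP
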