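import Pool.Agent.BVX.V3

/-!
# SGP [S6]: exponential sums over primes at fractions with denominator `a`
-/

set_option autoImplicit false

namespace Pool.Agent.SGP

open Finset Filter Pool.Agent.Helper25

theorem exp_bound : ∃ C : ℝ, 0 < C ∧ ∀ a c M N h : ℕ, 2 ≤ a → a.Coprime c → M ≤ N → 3 ≤ N →
    a * a ≤ N → 1 ≤ h → h < a →
    ‖∑ n ∈ Icc 1 M, ((ArithmeticFunction.vonMangoldt n : ℝ) : ℂ) * ex (n * (h * c / a))‖ ≤
      C * ((N : ℝ) / √((a / h.gcd a : ℕ) : ℝ) + (N : ℝ) ^ ((5 : ℝ) / 6)) *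
        (1 + Real.log N) ^ 4 := by
  obtain ⟨C, hC, hV⟩ := Pool.Agent.BVX.vinogradov
  refine ⟨2 * C, by positivity, ?_⟩
  intro a c M N h ha hac hMN hN haN hh hha
  have hNR : (1 : ℝ) ≤ N := by exact_mod_cast (by omega : 1 ≤ N)
  have hlogN : 0 ≤ Real.log N := Real.log_nonneg hNR
  have hR : 0 ≤ (2 * C) * ((N : ℝ) / √((a / h.gcd a : ℕ) : ℝ) + (N : ℝ) ^ ((5 : ℝ) / 6)) *
        (1 + Real.log N) ^ 4 := by positivity
  rcases Nat.lt_or_ge M 2 with hM | hM
  · have h0 : ∑ n ∈ Icc 1 M, ((ArithmeticFunction.vonMangoldt n : ℝ) : ℂ) *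
        ex (n * (h * c / a)) = 0 := by
      apply Finset.sum_eq_zero
      intro n hn
      rw [Finset.mem_Icc] at hn
      have : n = 1 := by omega
      subst this
      simp
    rw [h0, norm_zero]
    exact hR
  · set g := h.gcd a with hg
    have hgpos : 0 < g := Nat.gcd_pos_of_pos_left _ (by omega)
    obtain ⟨h', hh'⟩ : g ∣ h := Nat.gcd_dvd_left _ _
    obtain ⟨q, hq⟩ : g ∣ a := Nat.gcd_dvd_right _ _
    have hqa : a / g = q := by
      rw [hq, Nat.mul_div_cancel_left _ hgpos]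
    have hq1 : 1 ≤ q := by
      rcases Nat.eq_zero_or_pos q with h0 | h0
      · rw [h0] at hq; omega
      · exact h0
    have hcop1 : Nat.Coprime h' q := by
      have hc := Nat.coprime_div_gcd_div_gcd (m := h) (n := a) (by rw [← hg]; exact hgpos)
      rw [← hg] at hc
      have e1 : h / g = h' := by
        conv_lhs => rw [hh']
        rw [Nat.mul_div_cancel_left _ hgpos]
      rw [e1, hqa] at hc
      exact hc
    have hcop2 : Nat.Coprime c q := by
      have : q ∣ a := ⟨g, by rw [hq]; ring⟩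
      exact (Nat.Coprime.coprime_dvd_left this hac).symm
    have hcop : IsCoprime (((h' * c : ℕ) : ℤ)) (q : ℤ) := by
      rw [Nat.isCoprime_iff_coprime]
      exact Nat.Coprime.mul_left hcop1 hcop2
    have hgR : (g : ℝ) ≠ 0 := by exact_mod_cast hgpos.ne'
    have hqR0 : (q : ℝ) ≠ 0 := by exact_mod_cast (by omega : q ≠ 0)
    have hθ : ((h : ℝ) * c / a) = (((h' * c : ℕ) : ℤ) : ℝ) / q := by
      rw [show (h : ℝ) = (g : ℝ) * h' by exact_mod_cast hh',
        show (a : ℝ) = (g : ℝ) * q by exact_mod_cast hq]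
      push_cast
      field_simp
    have hθ' : |((h : ℝ) * c / a) - (((h' * c : ℕ) : ℤ) : ℝ) / q| ≤ 1 / (q : ℝ) ^ 2 := by
      rw [hθ, sub_self, abs_zero]
      positivity
    have key := hV ((h : ℝ) * c / a) ((h' * c : ℕ) : ℤ) q hq1 hcop hθ' M hM
    refine key.trans ?_
    rw [hqa]
    have hqR : (0 : ℝ) < q := by exact_mod_cast hq1
    have hMR : (M : ℝ) ≤ N := by exact_mod_cast hMN
    have hM0 : (0 : ℝ) < M := by exact_mod_cast (by omega : 0 < M)
    have hM1 : (1 : ℝ) ≤ M := by exact_mod_cast (by omega : 1 ≤ M)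
    have hN0 : (0 : ℝ) < N := by linarith
    have b1 : (M : ℝ) / √q ≤ (N : ℝ) / √q := by gcongr
    have b2 : (M : ℝ) ^ ((5 : ℝ) / 6) ≤ (N : ℝ) ^ ((5 : ℝ) / 6) :=
      Real.rpow_le_rpow hM0.le hMR (by norm_num)
    have b3 : √((M : ℝ) * q) ≤ (N : ℝ) ^ ((5 : ℝ) / 6) := by
      have hqle : (q : ℝ) ≤ √N := by
        apply Real.le_sqrt_of_sq_le
        have : q ≤ a := by rw [hq]; exact Nat.le_mul_of_pos_left _ hgpos
        have : q * q ≤ N := le_trans (Nat.mul_le_mul this this) haN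
        have : (q : ℝ) * q ≤ N := by exact_mod_cast this
        rw [sq]; exact this
      have : √((M : ℝ) * q) ≤ √((N : ℝ) * √N) := by
        apply Real.sqrt_le_sqrt
        gcongr
      refine this.trans ?_
      have e : √((N : ℝ) * √N) = (N : ℝ) ^ ((3 : ℝ) / 4) := by
        rw [Real.sqrt_eq_rpow, Real.sqrt_eq_rpow]
        rw [show (N : ℝ) * (N : ℝ) ^ ((1 : ℝ) / 2) = (N : ℝ) ^ ((3 : ℝ) / 2) by
          rw [show ((3 : ℝ) / 2) = 1 + 1 / 2 by norm_num, Real.rpow_add hN0, Real.rpow_one]]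
        rw [← Real.rpow_mul hN0.le]
        norm_num
      rw [e]
      exact Real.rpow_le_rpow_of_exponent_le hNR (by norm_num)
    have b4 : Real.log M ≤ Real.log N := Real.log_le_log hM0 hMR
    have b5 : 0 ≤ Real.log M := Real.log_nonneg hM1
    have b6 : (1 + Real.log M) ^ 4 ≤ (1 + Real.log N) ^ 4 := by gcongr
    have b7 : (M : ℝ) / √q + (M : ℝ) ^ ((5 : ℝ) / 6) + √((M : ℝ) * q) ≤
        2 * ((N : ℝ) / √q + (N : ℝ) ^ ((5 : ℝ) / 6)) := by
      have : 0 ≤ (N : ℝ) / √q := by positivity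
      linarith
    calc C * ((M : ℝ) / √q + (M : ℝ) ^ ((5 : ℝ) / 6) + √((M : ℝ) * q)) * (1 + Real.log M) ^ 4
        ≤ C * (2 * ((N : ℝ) / √q + (N : ℝ) ^ ((5 : ℝ) / 6))) * (1 + Real.log N) ^ 4 := by
          gcongr
      _ = 2 * C * ((N : ℝ) / √q + (N : ℝ) ^ ((5 : ℝ) / 6)) * (1 + Real.log N) ^ 4 := by ring

end Pool.Agent.SGP
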