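import Mathlib

/-!
# SGP [S7]: the sum over the frequencies
-/

set_option autoImplicit false

namespace Pool.Agent.SGP

open Finset Filter

theorem s7_harm (n : ℕ) : ∑ h ∈ Ico 1 (n + 1), 1 / (h : ℝ) ≤ 1 + Real.log n := by
  have h1 := harmonic_le_one_add_log n
  have h2 : ((harmonic n : ℚ) : ℝ) = ∑ h ∈ Ico 1 (n + 1), 1 / (h : ℝ) := by
    unfold harmonic
    rw [Finset.sum_Ico_eq_sum_range]
    push_cast
    apply Finset.sum_congr
    · simp
    · intro i _
      rw [one_div, add_comm]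
  rw [← h2]
  exact h1

/-- frequencies with large reduced denominator -/
theorem sum_inv_min (a : ℕ) (ha : 2 ≤ a) :
    ∑ h ∈ Ico 1 a, 1 / (2 * min (h : ℝ) ((a : ℝ) - h)) ≤ 1 + Real.log a := by
  obtain ⟨n, rfl⟩ : ∃ n, a = n + 1 := ⟨a - 1, by omega⟩
  have h1 : ∀ h ∈ Ico 1 (n + 1), 1 / (2 * min (h : ℝ) (((n + 1 : ℕ) : ℝ) - h)) ≤
      (1 / 2) * (1 / (h : ℝ) + 1 / ((n + 1 - h : ℕ) : ℝ)) := by
    intro h hh
    rw [Finset.mem_Ico] at hh
    have e1 : ((n + 1 - h : ℕ) : ℝ) = ((n + 1 : ℕ) : ℝ) - h := by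
      rw [Nat.cast_sub (by omega)]
    have p1 : (0 : ℝ) < h := by
      have : 0 < h := by omega
      exact_mod_cast this
    have p2 : (0 : ℝ) < ((n + 1 : ℕ) : ℝ) - h := by
      rw [← e1]
      have : 0 < n + 1 - h := by omega
      exact_mod_cast this
    rw [e1]
    have q1 : 0 < 1 / (h : ℝ) := by positivity
    have q2 : 0 < 1 / (((n + 1 : ℕ) : ℝ) - h) := by positivity
    have key : ∀ x : ℝ, 1 / (2 * x) = 1 / 2 * (1 / x) := fun x => by
      rw [one_div_mul_one_div]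
    rcases le_total (h : ℝ) (((n + 1 : ℕ) : ℝ) - h) with h3 | h3
    · rw [min_eq_left h3, key]
      apply mul_le_mul_of_nonneg_left _ (by norm_num)
      linarith
    · rw [min_eq_right h3, key]
      apply mul_le_mul_of_nonneg_left _ (by norm_num)
      linarith
  have h2 : ∑ h ∈ Ico 1 (n + 1), 1 / ((n + 1 - h : ℕ) : ℝ) = ∑ h ∈ Ico 1 (n + 1), 1 / (h : ℝ) := by
    apply Finset.sum_bij' (fun h _ => n + 1 - h) (fun h _ => n + 1 - h)
    · intro h hh
      rw [Finset.mem_Ico] at hh ⊢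
      omega
    · intro h hh
      rw [Finset.mem_Ico] at hh ⊢
      omega
    · intro h hh
      rw [Finset.mem_Ico] at hh
      show n + 1 - (n + 1 - h) = h
      omega
    · intro h hh
      rw [Finset.mem_Ico] at hh
      show n + 1 - (n + 1 - h) = h
      omega
    · intro h hh
      rfl
  have h3 := Finset.sum_le_sum h1
  rw [← Finset.mul_sum, Finset.sum_add_distrib, h2] at h3
  have h4 := s7_harm n
  have h5 : Real.log n ≤ Real.log ((n + 1 : ℕ) : ℝ) := by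
    apply Real.log_le_log
    · have : 0 < n := by omega
      exact_mod_cast this
    · push_cast
      linarith
  linarith

/-- frequencies with small reduced denominator -/
theorem sum_inv_min_small (a : ℕ) (ha : 2 ≤ a) (Q : ℝ) (hQ : 1 ≤ Q) :
    ∑ h ∈ (Ico 1 a).filter (fun h => ((a / h.gcd a : ℕ) : ℝ) < Q),
      1 / (2 * min (h : ℝ) ((a : ℝ) - h)) ≤ Q ^ 3 / (2 * a) := by
  have ha0 : (0 : ℝ) < a := by
    have : 0 < a := by omega
    exact_mod_cast this
  have hterm : ∀ h ∈ (Ico 1 a).filter (fun h => ((a / h.gcd a : ℕ) : ℝ) < Q),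
      1 / (2 * min (h : ℝ) ((a : ℝ) - h)) ≤ Q / (2 * a) := by
    intro h hh
    rw [Finset.mem_filter, Finset.mem_Ico] at hh
    obtain ⟨⟨h1, h2⟩, h3⟩ := hh
    have hg : 0 < h.gcd a := Nat.gcd_pos_of_pos_left _ (by omega)
    have hg1 : h.gcd a ≤ h := Nat.le_of_dvd (by omega) (Nat.gcd_dvd_left h a)
    have hg2 : h.gcd a ≤ a - h := Nat.le_of_dvd (by omega)
      (Nat.dvd_sub (Nat.gcd_dvd_right h a) (Nat.gcd_dvd_left h a))
    have hg0 : (0 : ℝ) < (h.gcd a : ℝ) := by exact_mod_cast hg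
    have hg1' : (h.gcd a : ℝ) ≤ h := by exact_mod_cast hg1
    have hg2' : (h.gcd a : ℝ) ≤ (a : ℝ) - h := by
      have : ((h.gcd a : ℕ) : ℝ) ≤ ((a - h : ℕ) : ℝ) := by exact_mod_cast hg2
      rwa [Nat.cast_sub (le_of_lt h2)] at this
    have hmin : (h.gcd a : ℝ) ≤ min (h : ℝ) ((a : ℝ) - h) := le_min hg1' hg2'
    have hmul : (a : ℝ) = (h.gcd a : ℝ) * ((a / h.gcd a : ℕ) : ℝ) := by
      rw [← Nat.cast_mul, Nat.mul_div_cancel' (Nat.gcd_dvd_right h a)]
    have hlt : (a : ℝ) ≤ (h.gcd a : ℝ) * Q := by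
      conv_lhs => rw [hmul]
      exact mul_le_mul_of_nonneg_left h3.le hg0.le
    have h5 : 1 / (2 * min (h : ℝ) ((a : ℝ) - h)) ≤ 1 / (2 * (h.gcd a : ℝ)) := by
      apply one_div_le_one_div_of_le (by positivity)
      linarith
    refine h5.trans ?_
    rw [div_le_div_iff₀ (by positivity) (by positivity)]
    linarith
  have hcard : (((Ico 1 a).filter (fun h => ((a / h.gcd a : ℕ) : ℝ) < Q)).card : ℝ) ≤ Q ^ 2 := by
    have h1 : ((Ico 1 a).filter (fun h => ((a / h.gcd a : ℕ) : ℝ) < Q)).card ≤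
        (Ico 1 ⌈Q⌉₊ ×ˢ Ico 1 ⌈Q⌉₊).card := by
      apply Finset.card_le_card_of_injOn (fun h => (a / h.gcd a, h / h.gcd a))
      · intro h hh
        rw [Finset.mem_coe, Finset.mem_filter, Finset.mem_Ico] at hh
        obtain ⟨⟨h1, h2⟩, h3⟩ := hh
        have hg : 0 < h.gcd a := Nat.gcd_pos_of_pos_left _ (by omega)
        have hg1 : h.gcd a ≤ h := Nat.le_of_dvd (by omega) (Nat.gcd_dvd_left h a)
        have h4 : a / h.gcd a < ⌈Q⌉₊ := Nat.lt_ceil.2 h3
        have h5 : h / h.gcd a ≤ a / h.gcd a := Nat.div_le_div_right h2.le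
        have h6 : 1 ≤ h / h.gcd a := (Nat.one_le_div_iff hg).2 hg1
        rw [Finset.mem_coe, Finset.mem_product, Finset.mem_Ico, Finset.mem_Ico]
        exact ⟨⟨le_trans h6 h5, h4⟩, h6, lt_of_le_of_lt h5 h4⟩
      · intro h hh h' hh' heq
        rw [Finset.mem_coe, Finset.mem_filter, Finset.mem_Ico] at hh hh'
        have e1 : a / h.gcd a = a / h'.gcd a := (Prod.mk.inj heq).1
        have e2 : h / h.gcd a = h' / h'.gcd a := (Prod.mk.inj heq).2
        have m1 : h.gcd a * (a / h.gcd a) = a := Nat.mul_div_cancel' (Nat.gcd_dvd_right h a)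
        have m2 : h'.gcd a * (a / h'.gcd a) = a := Nat.mul_div_cancel' (Nat.gcd_dvd_right h' a)
        have m3 : h.gcd a * (h / h.gcd a) = h := Nat.mul_div_cancel' (Nat.gcd_dvd_left h a)
        have m4 : h'.gcd a * (h' / h'.gcd a) = h' := Nat.mul_div_cancel' (Nat.gcd_dvd_left h' a)
        have hpos : 0 < a / h.gcd a := by
          rcases Nat.eq_zero_or_pos (a / h.gcd a) with h0 | h0
          · rw [h0, mul_zero] at m1
            omega
          · exact h0
        have hgg : h.gcd a = h'.gcd a := by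
          rw [← e1] at m2
          exact Nat.eq_of_mul_eq_mul_right hpos (m1.trans m2.symm)
        rw [← m3, ← m4, e2, hgg]
    rw [Finset.card_product, Nat.card_Ico] at h1
    have h2 : ((⌈Q⌉₊ - 1 : ℕ) : ℝ) ≤ Q := by
      have h3 : 1 ≤ ⌈Q⌉₊ := Nat.one_le_ceil_iff.2 (by linarith)
      rw [Nat.cast_sub h3]
      have h4 := Nat.ceil_lt_add_one (show (0 : ℝ) ≤ Q by linarith)
      push_cast
      linarith
    have h3 : (((Ico 1 a).filter (fun h => ((a / h.gcd a : ℕ) : ℝ) < Q)).card : ℝ) ≤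
        ((⌈Q⌉₊ - 1 : ℕ) : ℝ) * ((⌈Q⌉₊ - 1 : ℕ) : ℝ) := by exact_mod_cast h1
    have h4 : (0 : ℝ) ≤ ((⌈Q⌉₊ - 1 : ℕ) : ℝ) := Nat.cast_nonneg _
    nlinarith
  have h1 := Finset.sum_le_card_nsmul _ _ _ hterm
  rw [nsmul_eq_mul] at h1
  refine h1.trans ?_
  have h2 : (0 : ℝ) ≤ Q / (2 * a) := by positivity
  calc _ ≤ Q ^ 2 * (Q / (2 * a)) := mul_le_mul_of_nonneg_right hcard h2
    _ = Q ^ 3 / (2 * a) := by ring

end Pool.Agent.SGP
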