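import Pool.Agent.SGP.S1
import Pool.Agent.SGP.S5
import Pool.Agent.SGP.S6
import Pool.Agent.SGP.S7

/-!
# SGP [S8]: equidistribution of `v(n)`
-/

set_option autoImplicit false

namespace Pool.Agent.SGP

open Finset Filter Pool.Agent.Helper25

theorem s8_ev (C : ℝ) (hC : 0 < C) : ∃ X : ℕ, ∀ n : ℕ, X ≤ n → 3 ≤ Real.log n ∧
    96 * C ≤ Real.log n ^ 2 ∧ 96 * C * Real.log n ^ 10 ≤ (n : ℝ) ^ ((1 : ℝ) / 6) := by
  have h1 : Tendsto (fun n : ℕ => (n : ℝ)) atTop atTop := tendsto_natCast_atTop_atTop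
  have h2 : Tendsto (fun n : ℕ => Real.log n) atTop atTop := Real.tendsto_log_atTop.comp h1
  have e1 : ∀ᶠ n : ℕ in atTop, 3 + 96 * C ≤ Real.log n := h2.eventually_ge_atTop _
  have e2 : ∀ᶠ y : ℝ in atTop, ‖Real.log y ^ (10 : ℝ)‖ ≤ 1 / (96 * C) * ‖y ^ ((1 : ℝ) / 6)‖ :=
    (isLittleO_log_rpow_rpow_atTop (10 : ℝ) (s := 1 / 6) (by norm_num)).bound (by positivity)
  obtain ⟨X, hX⟩ := eventually_atTop.mp (e1.and (h1.eventually e2))
  refine ⟨X, fun n hn => ?_⟩
  obtain ⟨f1, f2⟩ := hX n hn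
  have hL : 3 ≤ Real.log n := by linarith
  refine ⟨hL, by nlinarith, ?_⟩
  have e3 : Real.log n ^ (10 : ℝ) = Real.log n ^ 10 := by
    have := Real.rpow_natCast (Real.log n) 10
    exact_mod_cast this
  rw [e3, Real.norm_of_nonneg (by positivity), Real.norm_of_nonneg (by positivity)] at f2
  have h3 := mul_le_mul_of_nonneg_left f2 (show 0 ≤ 96 * C by positivity)
  have e4 : 96 * C * (1 / (96 * C) * (n : ℝ) ^ ((1 : ℝ) / 6)) = (n : ℝ) ^ ((1 : ℝ) / 6) := by
    field_simp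
  rwa [e4] at h3

theorem s8_ex {a c n h : ℕ} (ha : 1 ≤ a) :
    ex ((h : ℝ) * ((c * n % a : ℕ) : ℝ) / a) = ex ((n : ℝ) * (h * c / a)) := by
  have ha' : (a : ℝ) ≠ 0 := by
    have : a ≠ 0 := by omega
    exact_mod_cast this
  obtain ⟨k, hk⟩ : ∃ k, c * n = a * k + c * n % a := ⟨c * n / a, (Nat.div_add_mod (c * n) a).symm⟩
  have e1 : (c : ℝ) * n = a * (k : ℝ) + ((c * n % a : ℕ) : ℝ) := by
    exact_mod_cast hk
  have e2 : (n : ℝ) * (h * c / a) = (h : ℝ) * ((c * n % a : ℕ) : ℝ) / a +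
      (((h * k : ℕ) : ℤ) : ℝ) := by
    have e3 : ((((h * k : ℕ) : ℤ)) : ℝ) = (h : ℝ) * k := by push_cast; ring
    rw [e3]
    field_simp
    linear_combination (h : ℝ) * e1
  rw [e2, ex_add, ex_int, mul_one]

theorem s8_range {M : ℕ} (f : ℕ → ℂ) :
    ∑ n ∈ range (M + 1), ((ArithmeticFunction.vonMangoldt n : ℝ) : ℂ) * f n =
      ∑ n ∈ Icc 1 M, ((ArithmeticFunction.vonMangoldt n : ℝ) : ℂ) * f n := by
  symm
  apply Finset.sum_subset
  · intro n hn
    rw [mem_Icc] at hn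
    rw [mem_range]
    omega
  · intro n hn hn'
    rw [mem_range] at hn
    rw [mem_Icc] at hn'
    have : n = 0 := by omega
    subst this
    simp

theorem s8_psi {M N : ℕ} (h : M ≤ N) : Psi M ≤ 6 * N := by
  have h1 : Psi M ≤ Chebyshev.psi (N : ℝ) := by
    unfold Psi Chebyshev.psi
    rw [Nat.floor_natCast]
    have h2 : ∑ n ∈ range (M + 1), ArithmeticFunction.vonMangoldt n =
        ∑ n ∈ Ioc 0 M, ArithmeticFunction.vonMangoldt n := by
      symm
      apply Finset.sum_subset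
      · intro n hn
        rw [mem_Ioc] at hn
        rw [mem_range]
        omega
      · intro n hn hn'
        rw [mem_range] at hn
        rw [mem_Ioc] at hn'
        have : n = 0 := by omega
        subst this
        simp
    rw [h2]
    apply Finset.sum_le_sum_of_subset_of_nonneg
    · intro n hn
      rw [mem_Ioc] at hn ⊢
      omega
    · intro n _ _
      exact ArithmeticFunction.vonMangoldt_nonneg
  have h3 := Chebyshev.psi_le_const_mul_self (x := (N : ℝ)) (Nat.cast_nonneg _)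
  have h4 : Real.log 4 ≤ 2 := by
    have e : (4 : ℝ) = 2 ^ 2 := by norm_num
    rw [e, Real.log_pow]
    have := Real.log_two_lt_d9
    push_cast
    linarith
  have h5 : (Real.log 4 + 4) * (N : ℝ) ≤ 6 * N :=
    mul_le_mul_of_nonneg_right (by linarith) (Nat.cast_nonneg _)
  linarith

theorem s8_expand {a b c' M K : ℕ} (ha : 2 ≤ a) (hv : ∀ n, vv a b n = (c' * n) % a)
    (c : ℕ → ℂ) (hc0 : c 0 = ((a : ℂ) - K) / a)
    (hc : ∀ v : ℕ, v < a → (if K ≤ v then (1 : ℂ) else 0) =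
      ∑ h ∈ range a, c h * ex (h * v / a)) :
    ((PsiGe a b M K - (1 - (K : ℝ) / a) * Psi M : ℝ) : ℂ) =
      ∑ h ∈ Ico 1 a, c h * ∑ n ∈ Icc 1 M, ((ArithmeticFunction.vonMangoldt n : ℝ) : ℂ) *
        ex (n * (h * c' / a)) := by
  have ha0 : (a : ℂ) ≠ 0 := by
    have : a ≠ 0 := by omega
    exact_mod_cast this
  have e1 : ((PsiGe a b M K : ℝ) : ℂ) = ∑ n ∈ range (M + 1),
      ((ArithmeticFunction.vonMangoldt n : ℝ) : ℂ) * ∑ h ∈ range a, c h * ex (n * (h * c' / a)) := by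
    unfold PsiGe
    rw [Finset.sum_filter]
    push_cast
    refine Finset.sum_congr rfl fun n _ => ?_
    have hlt : vv a b n < a := vv_lt a b n (by omega)
    have h1 := hc (vv a b n) hlt
    have h2 : ∑ h ∈ range a, c h * ex ((h : ℝ) * (vv a b n : ℝ) / a) =
        ∑ h ∈ range a, c h * ex ((n : ℝ) * (h * c' / a)) := by
      refine Finset.sum_congr rfl fun h _ => ?_
      rw [hv n, s8_ex (by omega)]
    rw [← h2, ← h1]
    split_ifs
    · rw [mul_one]
    · rw [mul_zero]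
      rfl
  have e2 : ∑ n ∈ range (M + 1), ((ArithmeticFunction.vonMangoldt n : ℝ) : ℂ) *
      ∑ h ∈ range a, c h * ex (n * (h * c' / a)) = ∑ h ∈ range a, c h *
        ∑ n ∈ range (M + 1), ((ArithmeticFunction.vonMangoldt n : ℝ) : ℂ) *
          ex (n * (h * c' / a)) := by
    simp only [Finset.mul_sum]
    rw [Finset.sum_comm]
    refine Finset.sum_congr rfl fun h _ => Finset.sum_congr rfl fun n _ => ?_
    ring
  have e3 : ∑ n ∈ range (M + 1), ((ArithmeticFunction.vonMangoldt n : ℝ) : ℂ) *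
      ex ((n : ℝ) * (((0 : ℕ) : ℝ) * c' / a)) = ((Psi M : ℝ) : ℂ) := by
    unfold Psi
    push_cast
    refine Finset.sum_congr rfl fun n _ => ?_
    rw [zero_mul, zero_div, mul_zero, ex_zero, mul_one]
  rw [Complex.ofReal_sub, e1, e2, Finset.range_eq_Ico a, Finset.sum_eq_sum_Ico_succ_bot (by omega),
    e3, hc0]
  have e4 : ((((1 - (K : ℝ) / a) * Psi M : ℝ)) : ℂ) = ((a : ℂ) - K) / a * ((Psi M : ℝ) : ℂ) := by
    push_cast
    field_simp
  rw [e4, add_sub_cancel_left]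
  refine Finset.sum_congr rfl fun h _ => ?_
  rw [s8_range]

theorem s8_final {C L N T : ℝ} (hC : 0 < C) (hN : 0 < N) (hL : 3 ≤ L) (h1 : 96 * C ≤ L ^ 2)
    (h2 : 96 * C * L ^ 10 ≤ N ^ ((1 : ℝ) / 6))
    (hT : T ≤ 3 * N / L ^ 8 + C * (N / L ^ 12 + N ^ ((5 : ℝ) / 6)) * (1 + L) ^ 4 * (1 + L)) :
    T ≤ N / L ^ 5 := by
  have hL0 : 0 < L := by linarith
  have hm : N ^ ((5 : ℝ) / 6) * N ^ ((1 : ℝ) / 6) = N := by
    rw [← Real.rpow_add hN]
    norm_num
  have hp : 0 < N ^ ((5 : ℝ) / 6) := Real.rpow_pos_of_pos hN _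
  have a1 : 3 * N / L ^ 8 ≤ N / L ^ 5 / 3 := by
    rw [div_div, div_le_div_iff₀ (by positivity) (by positivity)]
    have : 9 * L ^ 5 ≤ L ^ 8 := by
      have h3 : (9 : ℝ) ≤ L ^ 3 := by nlinarith [mul_self_nonneg (L - 3)]
      have : L ^ 8 = L ^ 5 * L ^ 3 := by ring
      rw [this]
      nlinarith [pow_pos hL0 5]
    nlinarith
  have a0 : (1 + L) ^ 4 * (1 + L) ≤ 32 * L ^ 5 := by
    have h3 : 1 + L ≤ 2 * L := by linarith
    calc (1 + L) ^ 4 * (1 + L) = (1 + L) ^ 5 := by ring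
      _ ≤ (2 * L) ^ 5 := pow_le_pow_left₀ (by linarith) h3 5
      _ = 32 * L ^ 5 := by ring
  have a2 : C * (N / L ^ 12 + N ^ ((5 : ℝ) / 6)) * (1 + L) ^ 4 * (1 + L) ≤
      C * (N / L ^ 12 + N ^ ((5 : ℝ) / 6)) * (32 * L ^ 5) := by
    rw [mul_assoc _ ((1 + L) ^ 4)]
    apply mul_le_mul_of_nonneg_left a0
    positivity
  have a3 : C * (N / L ^ 12) * (32 * L ^ 5) ≤ N / L ^ 5 / 3 := by
    have e : C * (N / L ^ 12) * (32 * L ^ 5) = 32 * C * N / L ^ 7 := by
      field_simp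
    rw [e, div_div, div_le_div_iff₀ (by positivity) (by positivity)]
    have e2 : N * L ^ 7 = N * L ^ 5 * L ^ 2 := by ring
    rw [e2]
    have : N * L ^ 5 * (96 * C) ≤ N * L ^ 5 * L ^ 2 := mul_le_mul_of_nonneg_left h1 (by positivity)
    nlinarith
  have a4 : C * N ^ ((5 : ℝ) / 6) * (32 * L ^ 5) ≤ N / L ^ 5 / 3 := by
    rw [div_div, le_div_iff₀ (by positivity)]
    calc C * N ^ ((5 : ℝ) / 6) * (32 * L ^ 5) * (L ^ 5 * 3) =
        N ^ ((5 : ℝ) / 6) * (96 * C * L ^ 10) := by ring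
      _ ≤ N ^ ((5 : ℝ) / 6) * N ^ ((1 : ℝ) / 6) := mul_le_mul_of_nonneg_left h2 hp.le
      _ = N := hm
  have a5 : C * (N / L ^ 12 + N ^ ((5 : ℝ) / 6)) * (32 * L ^ 5) =
      C * (N / L ^ 12) * (32 * L ^ 5) + C * N ^ ((5 : ℝ) / 6) * (32 * L ^ 5) := by ring
  linarith

theorem st_D : St_D := by
  obtain ⟨C, hC, hE⟩ := exp_bound
  obtain ⟨X, hX⟩ := s8_ev C hC
  refine ⟨80, X, ?_⟩
  intro a b ha hab hcop hXab hLa M K hM hK
  obtain ⟨hL, hX1, hX2⟩ := hX (a * b) hXab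
  push_cast at hL hX1 hX2
  obtain ⟨c', hc', hv⟩ := vv_inv a b (by omega) hcop
  obtain ⟨c, hc0, hc1, hc2⟩ := interval_coeff a K (by omega) hK
  have hex := s8_expand (b := b) (c' := c') (M := M) (K := K) (by omega) hv c hc0 hc2
  set L : ℝ := Real.log (a * b : ℝ) with hLdef
  have hL0 : 0 < L := by linarith
  have ha' : (3 : ℝ) ≤ a := by exact_mod_cast ha
  have hb' : (3 : ℝ) ≤ b := by
    have : 3 ≤ b := by omega
    exact_mod_cast this
  have hN : (0 : ℝ) < (a : ℝ) * b := by nlinarith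
  have hlog : Real.log a ≤ L := by
    apply Real.log_le_log (by linarith)
    nlinarith
  set E : ℕ → ℂ := fun h => ∑ n ∈ Icc 1 M, ((ArithmeticFunction.vonMangoldt n : ℝ) : ℂ) *
        ex (n * (h * c' / a)) with hEdef
  set w : ℕ → ℝ := fun h => 1 / (2 * min (h : ℝ) ((a : ℝ) - h)) with hwdef
  have hw0 : ∀ h ∈ Ico 1 a, 0 ≤ w h := by
    intro h hh
    rw [mem_Ico] at hh
    have h1 : (0 : ℝ) ≤ h := Nat.cast_nonneg _
    have h2 : (h : ℝ) ≤ a := by exact_mod_cast hh.2.le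
    have h3 : 0 ≤ min (h : ℝ) ((a : ℝ) - h) := le_min h1 (by linarith)
    exact div_nonneg zero_le_one (mul_nonneg zero_le_two h3)
  have hEtriv : ∀ h, ‖E h‖ ≤ 6 * ((a : ℝ) * b) := by
    intro h
    calc ‖E h‖ ≤ ∑ n ∈ Icc 1 M, ‖((ArithmeticFunction.vonMangoldt n : ℝ) : ℂ) *
          ex (n * (h * c' / a))‖ := norm_sum_le _ _
      _ = ∑ n ∈ Icc 1 M, ArithmeticFunction.vonMangoldt n := by
          refine Finset.sum_congr rfl fun n _ => ?_
          rw [norm_mul, norm_ex, mul_one, Complex.norm_real,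
            Real.norm_of_nonneg ArithmeticFunction.vonMangoldt_nonneg]
      _ ≤ Psi M := by
          unfold Psi
          apply Finset.sum_le_sum_of_subset_of_nonneg
          · intro n hn
            rw [mem_Icc] at hn
            rw [mem_range]
            omega
          · intro n _ _
            exact ArithmeticFunction.vonMangoldt_nonneg
      _ ≤ 6 * ((a * b : ℕ) : ℝ) := s8_psi hM
      _ = 6 * ((a : ℝ) * b) := by push_cast; ring
  set BB : ℝ := C * ((a : ℝ) * b / L ^ 12 + ((a : ℝ) * b) ^ ((5 : ℝ) / 6)) * (1 + L) ^ 4 with hBB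
  have hBB0 : 0 ≤ BB := by positivity
  have hEbig : ∀ h, h ∈ Ico 1 a → ¬ (((a / h.gcd a : ℕ) : ℝ) < L ^ 24) → ‖E h‖ ≤ BB := by
    intro h hh hq
    rw [mem_Ico] at hh
    push Not at hq
    have h1 := hE a c' M (a * b) h (by omega) hc' hM (by
      have : 3 * 1 ≤ a * b := Nat.mul_le_mul ha (by omega)
      omega) (Nat.mul_le_mul_left a hab.le) hh.1 hh.2
    push_cast at h1
    refine h1.trans ?_
    rw [hBB, ← hLdef]
    apply mul_le_mul_of_nonneg_right _ (by positivity)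
    apply mul_le_mul_of_nonneg_left _ hC.le
    apply add_le_add_left
    apply div_le_div_of_nonneg_left hN.le (by positivity)
    apply Real.le_sqrt_of_sq_le
    calc (L ^ 12) ^ 2 = L ^ 24 := by ring
      _ ≤ _ := hq
  have hmain : |PsiGe a b M K - (1 - (K : ℝ) / a) * Psi M| ≤
      L ^ 72 / (2 * a) * (6 * ((a : ℝ) * b)) + (1 + L) * BB := by
    have h1 : |PsiGe a b M K - (1 - (K : ℝ) / a) * Psi M| =
        ‖((PsiGe a b M K - (1 - (K : ℝ) / a) * Psi M : ℝ) : ℂ)‖ := by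
      rw [Complex.norm_real, Real.norm_eq_abs]
    rw [h1, hex]
    have h2 : ‖∑ h ∈ Ico 1 a, c h * E h‖ ≤ ∑ h ∈ Ico 1 a, w h * ‖E h‖ := by
      refine (norm_sum_le _ _).trans (Finset.sum_le_sum fun h hh => ?_)
      rw [norm_mul]
      rw [mem_Ico] at hh
      exact mul_le_mul_of_nonneg_right (hc1 h hh.1 hh.2) (norm_nonneg _)
    refine h2.trans ?_
    rw [← Finset.sum_filter_add_sum_filter_not (Ico 1 a)
      (fun h => ((a / h.gcd a : ℕ) : ℝ) < L ^ 24)]
    apply add_le_add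
    · have h3 := sum_inv_min_small a (by omega) (L ^ 24) (one_le_pow₀ (by linarith))
      have e : (L ^ 24) ^ 3 = L ^ 72 := by ring
      rw [e] at h3
      refine le_trans ?_ (mul_le_mul_of_nonneg_right h3 (by positivity))
      rw [Finset.sum_mul]
      refine Finset.sum_le_sum fun h hh => ?_
      exact mul_le_mul_of_nonneg_left (hEtriv h) (hw0 h (mem_filter.mp hh).1)
    · have h3 := sum_inv_min a (by omega)
      have h4 : 1 + Real.log a ≤ 1 + L := by linarith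
      refine le_trans ?_ (mul_le_mul_of_nonneg_right (h3.trans h4) hBB0)
      rw [Finset.sum_mul]
      calc ∑ h ∈ (Ico 1 a).filter (fun h => ¬ (((a / h.gcd a : ℕ) : ℝ) < L ^ 24)), w h * ‖E h‖
          ≤ ∑ h ∈ (Ico 1 a).filter (fun h => ¬ (((a / h.gcd a : ℕ) : ℝ) < L ^ 24)), w h * BB := by
            refine Finset.sum_le_sum fun h hh => ?_
            rw [mem_filter] at hh
            exact mul_le_mul_of_nonneg_left (hEbig h hh.1 hh.2) (hw0 h hh.1)
        _ ≤ ∑ h ∈ Ico 1 a, w h * BB := by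
            apply Finset.sum_le_sum_of_subset_of_nonneg (Finset.filter_subset _ _)
            intro h hh _
            exact mul_nonneg (hw0 h hh) hBB0
  refine s8_final hC hN hL hX1 hX2 (hmain.trans ?_)
  apply add_le_add
  · have h1 : L ^ 72 / (2 * a) ≤ 1 / (2 * L ^ 8) := by
      rw [div_le_div_iff₀ (by positivity) (by positivity)]
      have : L ^ 72 * (2 * L ^ 8) = 2 * L ^ 80 := by ring
      rw [this]
      linarith
    calc L ^ 72 / (2 * a) * (6 * ((a : ℝ) * b)) ≤ 1 / (2 * L ^ 8) * (6 * ((a : ℝ) * b)) :=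
          mul_le_mul_of_nonneg_right h1 (by positivity)
      _ = 3 * ((a : ℝ) * b) / L ^ 8 := by
          field_simp
          ring
  · rw [hBB]
    exact le_of_eq (by ring)

end Pool.Agent.SGP
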