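import Pool.Agent.SGP.S1
import Pool.Agent.BVX.A8

/-!
# SGP [S9]: the case of large `a`
-/

set_option autoImplicit false

namespace Pool.Agent.SGP

open Finset Filter

private theorem s9_split (P : ℕ → Prop) [DecidablePred P] (f : ℕ → ℝ) {M M' : ℕ} (h : M ≤ M') :
    ∑ n ∈ (range (M' + 1)).filter P, f n =
      ∑ n ∈ (range (M + 1)).filter P, f n + ∑ n ∈ Ico (M + 1) (M' + 1), if P n then f n else 0 := by
  rw [sum_filter, sum_filter, sum_range_add_sum_Ico _ (by omega)]

private theorem s9_mono (a b : ℕ) {M M' : ℕ} (h : M ≤ M') : PsiOut a b M ≤ PsiOut a b M' := by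
  unfold PsiOut
  rw [s9_split _ _ h]
  have h1 : 0 ≤ ∑ n ∈ Ico (M + 1) (M' + 1),
      if n < b * vv a b n then ArithmeticFunction.vonMangoldt n else 0 := by
    refine sum_nonneg fun n _ => ?_
    split_ifs
    · exact ArithmeticFunction.vonMangoldt_nonneg
    · exact le_rfl
  linarith

private theorem s9_step (a b K : ℕ) {M M' : ℕ} (h : M ≤ M')
    (hK : ∀ n, n ≤ M' → K ≤ vv a b n → n < b * vv a b n) :
    PsiOut a b M + (PsiGe a b M' K - PsiGe a b M K) ≤ PsiOut a b M' := by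
  unfold PsiOut PsiGe
  rw [s9_split (fun n => n < b * vv a b n) _ h, s9_split (fun n => K ≤ vv a b n) _ h]
  have h1 : ∑ n ∈ Ico (M + 1) (M' + 1),
      (if K ≤ vv a b n then ArithmeticFunction.vonMangoldt n else 0) ≤
      ∑ n ∈ Ico (M + 1) (M' + 1),
      if n < b * vv a b n then ArithmeticFunction.vonMangoldt n else 0 := by
    refine sum_le_sum fun n hn => ?_
    have hn' : n ≤ M' := by
      have := (mem_Ico.1 hn).2
      omega
    by_cases h2 : K ≤ vv a b n
    · rw [if_pos h2, if_pos (hK n hn' h2)]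
    · rw [if_neg h2]
      split_ifs
      · exact ArithmeticFunction.vonMangoldt_nonneg
      · exact le_rfl
  linarith

private theorem s9_core (a b : ℕ) (ha : 1 ≤ a) (hb : 1 ≤ b) (E : ℝ)
    (hD : ∀ M K : ℕ, M ≤ a * b → K ≤ a → |PsiGe a b M K - (1 - (K : ℝ) / a) * Psi M| ≤ E)
    (hP : ∀ M : ℕ, M ≤ a * b → |Psi M - (M + 1)| ≤ E) (H : ℕ) (J : ℕ) (hJ : J < H) :
    ∑ j ∈ range J, ((1 - ((j : ℝ) + 1) / H - 1 / a) * ((a * b : ℝ) / H) - 1 - 4 * E) ≤
      PsiOut a b (J * (a * b) / H) := by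
  have hE : 0 ≤ E := (abs_nonneg _).trans (hP 0 (Nat.zero_le _))
  induction J with
  | zero =>
    rw [range_zero, sum_empty]
    unfold PsiOut
    exact sum_nonneg fun n _ => ArithmeticFunction.vonMangoldt_nonneg
  | succ J ih =>
    have ih' := ih (by omega)
    have hH : 0 < H := by omega
    rw [sum_range_succ]
    obtain ⟨N, hN⟩ : ∃ N, N = a * b := ⟨_, rfl⟩
    have hN1 : 1 ≤ N := hN ▸ Nat.mul_pos ha hb
    have hNr : (N : ℝ) = (a : ℝ) * b := by rw [hN]; push_cast; ring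
    rw [← hN] at ih' hD hP ⊢
    rw [← hNr] at ih' ⊢
    obtain ⟨M, hM⟩ : ∃ M, M = J * N / H := ⟨_, rfl⟩
    obtain ⟨M', hM'⟩ : ∃ M', M' = (J + 1) * N / H := ⟨_, rfl⟩
    obtain ⟨K, hK⟩ : ∃ K, K = (J + 1) * a / H + 1 := ⟨_, rfl⟩
    rw [← hM] at ih'
    rw [← hM']
    have hMM : M ≤ M' := by
      rw [hM, hM']
      exact Nat.div_le_div_right (Nat.mul_le_mul_right N (Nat.le_succ J))
    have hM'N : M' ≤ N := by
      rw [hM']
      exact Nat.div_le_of_le_mul (by
        exact Nat.mul_le_mul_right N (by omega))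
    have hKa : K ≤ a := by
      rw [hK]
      have h1 : (J + 1) * a / H < a := by
        rw [Nat.div_lt_iff_lt_mul hH, mul_comm a H]
        exact Nat.mul_lt_mul_of_pos_right hJ (by omega)
      omega
    have hHr : (0 : ℝ) < H := by exact_mod_cast hH
    have har : (0 : ℝ) < a := by exact_mod_cast ha
    have hbr : (0 : ℝ) < b := by exact_mod_cast hb
    -- real estimates
    have r1 : (M : ℝ) ≤ J * N / H := by
      rw [hM]
      have := Nat.cast_div_le (α := ℝ) (m := J * N) (n := H)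
      push_cast at this
      exact this
    have r2 : ((J : ℝ) + 1) * N / H - 1 ≤ M' := by
      have h1 : (J + 1) * N < H * (M' + 1) := by
        rw [hM']
        exact Nat.lt_mul_div_succ _ hH
      have h2 : ((J : ℝ) + 1) * N < H * (M' + 1) := by exact_mod_cast h1
      rw [sub_le_iff_le_add, div_le_iff₀ hHr]
      linarith
    have r3 : (K : ℝ) / a ≤ ((J : ℝ) + 1) / H + 1 / a := by
      have h1 : (K : ℝ) ≤ ((J : ℝ) + 1) * a / H + 1 := by
        rw [hK]
        have := Nat.cast_div_le (α := ℝ) (m := (J + 1) * a) (n := H)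
        push_cast at this
        push_cast
        linarith
      calc (K : ℝ) / a ≤ (((J : ℝ) + 1) * a / H + 1) / a := by gcongr
        _ = _ := by field_simp
    have r4 : (K : ℝ) / a ≤ 1 := by
      rw [div_le_one har]
      exact_mod_cast hKa
    have r5 : 0 ≤ (K : ℝ) / a := by positivity
    have hstep := s9_step a b K hMM (by
      intro n hn hv
      have h1 : n * H ≤ (J + 1) * N := by
        calc n * H ≤ M' * H := Nat.mul_le_mul_right H hn
          _ ≤ (J + 1) * N := by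
            rw [hM']
            exact Nat.div_mul_le_self _ _
      have h2 : (J + 1) * a < H * K := by
        rw [hK]
        exact Nat.lt_mul_div_succ _ hH
      have h3 : (J + 1) * N < b * K * H := by
        rw [hN]
        have := Nat.mul_lt_mul_of_pos_right h2 hb
        calc (J + 1) * (a * b) = (J + 1) * a * b := by ring
          _ < H * K * b := this
          _ = b * K * H := by ring
      have h4 : n < b * K := by
        by_contra hcon
        have := Nat.mul_le_mul_right H (not_lt.1 hcon)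
        omega
      exact lt_of_lt_of_le h4 (Nat.mul_le_mul_left b hv))
    have d1 := (abs_le.1 (hD M' K hM'N hKa)).1
    have d2 := (abs_le.1 (hD M K (hMM.trans hM'N) hKa)).2
    have p1 := (abs_le.1 (hP M' hM'N)).1
    have p2 := (abs_le.1 (hP M (hMM.trans hM'N))).2
    -- assembling
    obtain ⟨κ, hκ⟩ : ∃ κ : ℝ, κ = 1 - (K : ℝ) / a := ⟨_, rfl⟩
    rw [← hκ] at d1 d2
    have hκ0 : 0 ≤ κ := by rw [hκ]; linarith
    have hκ1 : κ ≤ 1 := by rw [hκ]; linarith
    have q1 : (N : ℝ) / H - 1 - 2 * E ≤ Psi M' - Psi M := by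
      have h1 : ((J : ℝ) + 1) * N / H = J * N / H + N / H := by ring
      linarith
    have q2 : κ * ((N : ℝ) / H) - 1 - 2 * E ≤ κ * (Psi M' - Psi M) := by
      have h1 := mul_le_mul_of_nonneg_left q1 hκ0
      nlinarith
    have q3 : (1 - ((J : ℝ) + 1) / H - 1 / a) * ((N : ℝ) / H) ≤ κ * ((N : ℝ) / H) := by
      refine mul_le_mul_of_nonneg_right ?_ (by positivity)
      rw [hκ]
      linarith
    linarith

private theorem s9_sum (J : ℕ) (H a y e : ℝ) (hH : 0 < H) :
    ∑ j ∈ range J, ((1 - ((j : ℝ) + 1) / H - 1 / a) * y - 1 - e) =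
      (J - J * (J + 1) / (2 * H) - J / a) * y - J * (1 + e) := by
  induction J with
  | zero => simp
  | succ J ih =>
    rw [sum_range_succ, ih]
    push_cast
    field_simp
    ring

private theorem s9_evlog (C : ℝ) : ∀ᶠ N : ℕ in atTop, C ≤ Real.log N :=
  (Real.tendsto_log_atTop.comp tendsto_natCast_atTop_atTop).eventually_ge_atTop C

private theorem s9_evpow : ∀ᶠ N : ℕ in atTop, Real.log N ^ 4 ≤ N := by
  have h1 := (Real.isLittleO_pow_log_id_atTop (n := 4)).comp_tendsto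
    (tendsto_natCast_atTop_atTop (R := ℝ))
  have h2 := h1.bound one_pos
  filter_upwards [h2, eventually_ge_atTop 1] with N h3 h4
  simp only [Function.comp, id_eq, one_mul, Real.norm_eq_abs] at h3
  have h5 : (0 : ℝ) ≤ N := Nat.cast_nonneg N
  rw [abs_of_nonneg h5] at h3
  exact (le_abs_self _).trans h3

theorem large (hD : St_D) : St_Large := by
  obtain ⟨B, X0, hD⟩ := hD
  refine ⟨B + 2, fun ε hε => ?_⟩
  obtain ⟨X, hX⟩ := eventually_atTop.1 ((BVX.sw_one 5).and
    ((s9_evlog (10 + 4 / ε)).and (s9_evpow.and (eventually_ge_atTop X0))))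
  refine ⟨X, fun a b ha hab hc hXab hBa => ?_⟩
  obtain ⟨hsw, hlog, hpow, hX0⟩ := hX (a * b) hXab
  have hN0 : 0 < a * b := Nat.mul_pos (by omega) (by omega)
  obtain ⟨x, hx⟩ : ∃ x : ℝ, x = (a : ℝ) * b := ⟨_, rfl⟩
  obtain ⟨L, hL⟩ : ∃ L : ℝ, L = Real.log x := ⟨_, rfl⟩
  have hxN : ((a * b : ℕ) : ℝ) = x := by rw [hx]; push_cast; ring
  rw [hxN, ← hL] at hlog hpow
  rw [hxN, ← hL] at hsw
  have hx0 : 0 < x := by rw [← hxN]; exact_mod_cast hN0
  have h4ε : 0 < 4 / ε := by positivity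
  have hL10 : 10 ≤ L := by linarith
  have hL0 : 0 < L := by linarith
  rw [← hx, ← hL] at hBa
  have hLB : L ^ B ≤ (a : ℝ) := by
    refine le_trans ?_ hBa
    exact pow_le_pow_right₀ (by linarith) (by omega)
  have hL2a : L ^ 2 ≤ (a : ℝ) := by
    refine le_trans ?_ hBa
    exact pow_le_pow_right₀ (by linarith) (by omega)
  have hD' := hD a b ha hab hc hX0 (by rw [← hx, ← hL]; exact hLB)
  rw [← hx, ← hL] at hD'
  have hP : ∀ M : ℕ, M ≤ a * b → |Psi M - (M + 1)| ≤ x / L ^ 5 := by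
    intro M hM
    have h1 := hsw M hM
    have h2 : ∑ n ∈ range (M + 1), ((ArithmeticFunction.vonMangoldt n : ℝ) - 1) =
        Psi M - (M + 1) := by
      rw [sum_sub_distrib, Psi]
      simp
    rw [h2] at h1
    exact h1
  have hcore := s9_core a b (by omega) (by omega) (x / L ^ 5) hD' hP
  rw [← hx] at hcore
  -- the parameter `H`
  obtain ⟨H, hH⟩ : ∃ H : ℕ, H = ⌊L ^ 2⌋₊ := ⟨_, rfl⟩
  have hHle : (H : ℝ) ≤ L ^ 2 := by
    rw [hH]
    exact Nat.floor_le (by positivity)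
  have hHge : L ^ 2 - 1 < H := by
    rw [hH]
    exact Nat.sub_one_lt_floor _
  have hL2 : 100 ≤ L ^ 2 := by nlinarith
  have hH99 : (99 : ℝ) < H := by linarith
  have hH0 : (0 : ℝ) < H := by linarith
  have hHn : 99 < H := by exact_mod_cast hH99
  have har : (0 : ℝ) < a := by
    have : 0 < a := by omega
    exact_mod_cast this
  have e1 : 1 / (H : ℝ) ≤ 2 / L ^ 2 := by
    rw [div_le_div_iff₀ hH0 (by positivity)]
    linarith
  have e2 : 1 / (a : ℝ) ≤ 1 / L ^ 2 := one_div_le_one_div_of_le (by positivity) hL2a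
  have e3 : L ^ 2 * (1 + 4 * (x / L ^ 5)) ≤ x * (1 / L ^ 2 + 4 / L ^ 3) := by
    have h1 : L ^ 2 * (4 * (x / L ^ 5)) = x * (4 / L ^ 3) := by
      field_simp
    have h2 : L ^ 2 ≤ x * (1 / L ^ 2) := by
      rw [mul_one_div, le_div_iff₀ (by positivity)]
      calc L ^ 2 * L ^ 2 = L ^ 4 := by ring
        _ ≤ x := hpow
    nlinarith
  have e4 : 4 / L ^ 3 ≤ (4 / 10) * (1 / L ^ 2) := by
    rw [div_le_iff₀ (by positivity)]
    have h1 : 4 / 10 * (1 / L ^ 2) * L ^ 3 = 4 / 10 * L := by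
      field_simp
    rw [h1]
    linarith
  have hi0 : 0 < 1 / (H : ℝ) := by positivity
  have ha0 : 0 < 1 / (a : ℝ) := by positivity
  have hE0 : 0 ≤ 1 + 4 * (x / L ^ 5) := by positivity
  unfold Bounds
  rw [← hx, ← hL]
  constructor
  · -- `Y = a b`
    have h1 := hcore H (H - 1) (by omega)
    rw [s9_sum _ _ _ _ _ hH0] at h1
    have h2 : PsiOut a b ((H - 1) * (a * b) / H) ≤ PsiOut a b (a * b) := by
      refine s9_mono a b ?_
      exact Nat.div_le_of_le_mul (Nat.mul_le_mul_right _ (by omega))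
    have h3 : ((H - 1 : ℕ) : ℝ) = (H : ℝ) - 1 := by
      rw [Nat.cast_sub (by omega)]
      simp
    rw [h3] at h1
    have h4 : ((H : ℝ) - 1 - ((H : ℝ) - 1) * ((H : ℝ) - 1 + 1) / (2 * H) - ((H : ℝ) - 1) / a) *
        (x / H) = x * ((1 - 1 / H) * (1 / 2 - 1 / a)) := by
      field_simp
      ring
    rw [h4] at h1
    have h5 : 1 / 2 - (1 / 2) * (1 / H) - 1 / a ≤ (1 - 1 / (H : ℝ)) * (1 / 2 - 1 / a) := by
      nlinarith
    have h6 : ((H : ℝ) - 1) * (1 + 4 * (x / L ^ 5)) ≤ L ^ 2 * (1 + 4 * (x / L ^ 5)) :=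
      mul_le_mul_of_nonneg_right (by linarith) hE0
    have h7 : x * (1 / 2 - (1 / 2) * (1 / H) - 1 / a) ≤
        x * ((1 - 1 / (H : ℝ)) * (1 / 2 - 1 / a)) := mul_le_mul_of_nonneg_left h5 hx0.le
    have h8 : (1 / 2) * (1 / (H : ℝ)) + 1 / a + (1 / L ^ 2 + 4 / L ^ 3) ≤ ε / L := by
      have h9 : (1 / 2) * (1 / (H : ℝ)) + 1 / a + (1 / L ^ 2 + 4 / L ^ 3) ≤ 4 * (1 / L ^ 2) := by
        have h10 : 2 / L ^ 2 = 2 * (1 / L ^ 2) := by ring
        have h11 : 0 < 1 / L ^ 2 := by positivity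
        linarith
      refine h9.trans ?_
      have h12 : 4 ≤ ε * L := by
        have h13 : 4 / ε ≤ L := by linarith
        rw [div_le_iff₀ hε] at h13
        linarith
      rw [le_div_iff₀ hL0]
      have h14 : 4 * (1 / L ^ 2) * L = 4 / L := by
        field_simp
      rw [h14, div_le_iff₀ hL0]
      exact h12
    have h9 := mul_le_mul_of_nonneg_left h8 hx0.le
    have h10 : x * (ε / L) = ε * x / L := by ring
    rw [h10] at h9
    nlinarith
  · -- `Y = a b / 2`
    have h1 := hcore H (H / 2) (by omega)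
    rw [s9_sum _ _ _ _ _ hH0] at h1
    have h2 : PsiOut a b (H / 2 * (a * b) / H) ≤ PsiOut a b (a * b / 2) := by
      refine s9_mono a b ?_
      rw [Nat.le_div_iff_mul_le (by norm_num)]
      have h3 : H / 2 * (a * b) / H * H ≤ H / 2 * (a * b) := Nat.div_mul_le_self _ _
      have h4 : H / 2 * 2 ≤ H := Nat.div_mul_le_self _ _
      have h5 : (H / 2 * (a * b) / H * 2) * H ≤ (a * b) * H := by
        calc (H / 2 * (a * b) / H * 2) * H = (H / 2 * (a * b) / H * H) * 2 := by ring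
          _ ≤ (H / 2 * (a * b)) * 2 := Nat.mul_le_mul_right 2 h3
          _ = (a * b) * (H / 2 * 2) := by ring
          _ ≤ (a * b) * H := Nat.mul_le_mul_left _ h4
      exact Nat.le_of_mul_le_mul_right h5 (by omega)
    obtain ⟨J, hJ⟩ : ∃ J : ℝ, J = ((H / 2 : ℕ) : ℝ) := ⟨_, rfl⟩
    rw [← hJ] at h1
    have hJ1 : J ≤ H / 2 := by
      rw [hJ]
      exact Nat.cast_div_le
    have hJ2 : (H : ℝ) / 2 - 1 / 2 ≤ J := by
      have h3 : H ≤ 2 * (H / 2) + 1 := by omega
      have h4 : (H : ℝ) ≤ 2 * ((H / 2 : ℕ) : ℝ) + 1 := by exact_mod_cast h3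
      rw [hJ]
      linarith
    have hJ0 : 0 ≤ J := by rw [hJ]; exact Nat.cast_nonneg _
    -- `J / H`
    obtain ⟨t, ht⟩ : ∃ t : ℝ, t = J / H := ⟨_, rfl⟩
    have ht1 : t ≤ 1 / 2 := by
      rw [ht, div_le_iff₀ hH0]
      linarith
    have ht2 : 1 / 2 - (1 / 2) * (1 / H) ≤ t := by
      rw [ht, le_div_iff₀ hH0]
      have h3 : (1 / 2 - (1 / 2) * (1 / (H : ℝ))) * H = H / 2 - 1 / 2 := by
        field_simp
      rw [h3]
      exact hJ2
    have h4 : (J - J * (J + 1) / (2 * H) - J / a) * (x / H) =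
        x * (t * (1 - t / 2 - (1 / 2) * (1 / H) - 1 / a)) := by
      rw [ht]
      field_simp
      ring
    rw [h4] at h1
    have hHi : 1 / (H : ℝ) ≤ 1 / 99 := one_div_le_one_div_of_le (by norm_num) hH99.le
    have hai : 1 / (a : ℝ) ≤ 1 / 100 := by
      refine e2.trans ?_
      exact one_div_le_one_div_of_le (by norm_num) hL2
    have hLi : 1 / L ^ 2 ≤ 1 / 100 := one_div_le_one_div_of_le (by norm_num) hL2
    have h5 : 36 / 100 ≤ t * (1 - t / 2 - (1 / 2) * (1 / H) - 1 / a) := by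
      have h6 : 49 / 100 ≤ t := by linarith
      have h7 : 735 / 1000 - 1 / 1000 ≤ 1 - t / 2 - (1 / 2) * (1 / (H : ℝ)) - 1 / a := by linarith
      nlinarith
    have h6 : J * (1 + 4 * (x / L ^ 5)) ≤ L ^ 2 * (1 + 4 * (x / L ^ 5)) :=
      mul_le_mul_of_nonneg_right (by linarith) hE0
    have h7 := mul_le_mul_of_nonneg_left h5 hx0.le
    have h8 : (1 / 4 + 1 / (2 * (a : ℝ)) - ε) ≤ 27 / 100 := by
      have h9 : 1 / (2 * (a : ℝ)) = (1 / 2) * (1 / a) := by
        field_simp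
      rw [h9]
      linarith
    have h9 := mul_le_mul_of_nonneg_right h8 hx0.le
    have h10 : x * (1 / L ^ 2 + 4 / L ^ 3) ≤ x * (2 / 100) := by
      refine mul_le_mul_of_nonneg_left ?_ hx0.le
      linarith
    nlinarith

end Pool.Agent.SGP
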