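import Pool.Agent.SGP.S2
import Pool.Agent.SGP.S3
import Pool.Agent.SGP.S4
import Pool.Agent.SGP.S8
import Pool.Agent.SGP.S9
import Pool.Agent.SGP.S10

/-!
# SGP: assembly
-/

set_option autoImplicit false

namespace Pool.Agent.SGP

open Finset Filter

theorem main : ∃ X : ℕ, ∀ a b : ℕ, 3 ≤ a → a < b → a.Coprime b → X ≤ a * b → Ineq a b := by
  obtain ⟨B, hL⟩ := large st_D
  obtain ⟨X₁, h₁⟩ := hL (1 / 1000) (by norm_num)
  obtain ⟨X₂, h₂⟩ := small B (1 / 1000) (by norm_num)
  obtain ⟨X₃, h₃⟩ := final_num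
  refine ⟨X₁ + X₂ + X₃, ?_⟩
  intro a b ha hab hc hX
  have hB : Bounds a b (1 / 1000) := by
    rcases le_total ((a : ℝ)) (Real.log (a * b : ℝ) ^ B) with h | h
    · exact h₂ a b ha hab hc (by omega) h
    · exact h₁ a b ha hab hc (by omega) h
  have hN : 1 ≤ a * b := Nat.mul_pos (by omega) (by omega)
  have hN2 : 1 ≤ a * b / 2 := by
    have : 3 * 4 ≤ a * b := Nat.mul_le_mul ha (by omega)
    omega
  have e1 := thOut_ge a b (a * b) hN
  have e2 := thOut_ge a b (a * b / 2) hN2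
  have hab0 : (0 : ℝ) < (a * b : ℝ) := by exact_mod_cast hN
  have hle : ((a * b / 2 : ℕ) : ℝ) ≤ (a * b : ℝ) := by
    exact_mod_cast Nat.div_le_self (a * b) 2
  have h1le : (1 : ℝ) ≤ ((a * b / 2 : ℕ) : ℝ) := by exact_mod_cast hN2
  have hcmp : 2 * √((a * b / 2 : ℕ) : ℝ) * Real.log ((a * b / 2 : ℕ) : ℝ) ≤
      2 * √(a * b : ℝ) * Real.log (a * b : ℝ) := by
    apply mul_le_mul
    · exact mul_le_mul_of_nonneg_left (Real.sqrt_le_sqrt hle) (by norm_num)
    · exact Real.log_le_log (by linarith) hle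
    · exact Real.log_nonneg h1le
    · positivity
  have hf := h₃ a b ha hab (by omega) (ThOut a b (a * b)) (ThOut a b (a * b / 2))
    (by
      have := hB.1
      push_cast at e1
      linarith)
    (by
      have := hB.2
      linarith)
  exact hf.trans_le (piStar_ge a b (by omega) hab hc)

end Pool.Agent.SGP
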