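import Pool.Agent.SGP.Defs

/-!
# SGP [S1]: membership in the semigroup and the residue `v(n)`
-/

set_option autoImplicit false

namespace Pool.Agent.SGP

open Finset Filter

theorem vv_lt (a b n : ℕ) (ha : 1 ≤ a) : vv a b n < a := by
  have : NeZero a := ⟨by omega⟩
  exact ZMod.val_lt _

theorem s1_mod (a b n : ℕ) (ha : 1 ≤ a) (h : a.Coprime b) : b * vv a b n ≡ n [MOD a] := by
  have : NeZero a := ⟨by omega⟩
  have h2 : (b : ZMod a) * (vv a b n : ZMod a) = n := by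
    unfold vv
    rw [ZMod.natCast_zmod_val]
    have h1 : (b : ZMod a) * (b : ZMod a)⁻¹ = 1 := ZMod.coe_mul_inv_eq_one b h.symm
    calc (b : ZMod a) * ((n : ZMod a) * (b : ZMod a)⁻¹) =
        (n : ZMod a) * ((b : ZMod a) * (b : ZMod a)⁻¹) := by ring
      _ = n := by rw [h1, mul_one]
  rw [← Nat.cast_mul] at h2
  exact (ZMod.natCast_eq_natCast_iff _ _ _).1 h2

theorem vv_eq_iff (a b n v : ℕ) (ha : 1 ≤ a) (h : a.Coprime b) (hv : v < a) :
    vv a b n = v ↔ n % a = (b * v) % a := by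
  have h1 := s1_mod a b n ha h
  constructor
  · rintro rfl
    exact h1.symm
  · intro h2
    have h3 : b * vv a b n ≡ b * v [MOD a] := h1.trans h2
    have h4 : vv a b n ≡ v [MOD a] := Nat.ModEq.cancel_left_of_coprime h h3
    exact Nat.ModEq.eq_of_lt_of_lt h4 (vv_lt a b n ha) hv

theorem out_iff (a b n : ℕ) (ha : 1 ≤ a) (h : a.Coprime b) : Out a b n ↔ n < b * vv a b n := by
  constructor
  · intro hout
    by_contra hge
    rw [not_lt] at hge
    obtain ⟨u, hu⟩ := (Nat.modEq_iff_dvd' hge).1 (s1_mod a b n ha h)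
    exact hout ⟨u, vv a b n, by omega⟩
  · rintro hlt ⟨u, w, rfl⟩
    have h1 : vv a b (a * u + b * w) = w % a := by
      rw [vv_eq_iff a b _ _ ha h (Nat.mod_lt _ (by omega)), Nat.mul_add_mod, Nat.mul_mod_mod]
    rw [h1] at hlt
    have h2 : b * (w % a) ≤ b * w := Nat.mul_le_mul_left b (Nat.mod_le w a)
    omega

theorem vv_inv (a b : ℕ) (ha : 1 ≤ a) (h : a.Coprime b) :
    ∃ c : ℕ, a.Coprime c ∧ ∀ n : ℕ, vv a b n = (c * n) % a := by
  have : NeZero a := ⟨by omega⟩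
  refine ⟨((b : ZMod a)⁻¹).val, ?_, fun n => ?_⟩
  · have h1 := ZMod.val_coe_unit_coprime (ZMod.unitOfCoprime b h.symm)⁻¹
    have h2 : (((ZMod.unitOfCoprime b h.symm)⁻¹ : (ZMod a)ˣ) : ZMod a) = (b : ZMod a)⁻¹ := by
      rw [← ZMod.inv_coe_unit, ZMod.coe_unitOfCoprime]
    rw [h2] at h1
    exact h1.symm
  · unfold vv
    rw [ZMod.val_mul, ZMod.val_natCast, Nat.mod_mul_mod, mul_comm]

end Pool.Agent.SGP
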