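import Pool.Agent.SGP.S1

/-!
# SGP [S2]: from weights to counting
-/

set_option autoImplicit false

namespace Pool.Agent.SGP

open Finset Filter

theorem s2_pt (x n : ℕ) (hx : 2 ≤ x) (hn1 : 1 ≤ n) (hn : n ≤ x) :
    Real.log n / Real.log x + (if n ≤ x / 2 then Real.log 2 * Real.log n / Real.log x ^ 2 else 0) ≤
      1 := by
  have hx2 : (2 : ℝ) ≤ x := by exact_mod_cast hx
  have hL : 0 < Real.log x := Real.log_pos (by linarith)
  have hn0 : (0 : ℝ) < n := by exact_mod_cast hn1
  have hl0 : 0 ≤ Real.log n := Real.log_natCast_nonneg n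
  have hl2 : 0 < Real.log 2 := Real.log_pos (by norm_num)
  by_cases h : n ≤ x / 2
  · rw [if_pos h]
    have h1 : n * 2 ≤ x := by omega
    have h2 : (n : ℝ) * 2 ≤ x := by exact_mod_cast h1
    have h3 : Real.log n + Real.log 2 ≤ Real.log x := by
      rw [← Real.log_mul hn0.ne' (by norm_num)]
      exact Real.log_le_log (by positivity) h2
    rw [div_add_div _ _ hL.ne' (by positivity), div_le_one (by positivity)]
    nlinarith [mul_nonneg hL.le hl0, mul_pos hL hl2, mul_nonneg hl0 hl2.le,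
      mul_nonneg (mul_nonneg hL.le hL.le) hl0, sq_nonneg (Real.log 2),
      mul_le_mul_of_nonneg_left h3 (mul_nonneg hL.le hL.le),
      mul_le_mul_of_nonneg_left h3 (mul_nonneg hL.le hl2.le),
      mul_nonneg hL.le (sq_nonneg (Real.log 2))]
  · rw [if_neg h, add_zero, div_le_one hL]
    exact Real.log_le_log hn0 (by exact_mod_cast hn)

theorem s2_card (a b : ℕ) (ha : 1 ≤ a) (h : a.Coprime b) :
    piStar a b = ((range (a * b + 1)).filter (fun n => n.Prime ∧ n < b * vv a b n)).card := by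
  unfold piStar
  rw [← Set.ncard_coe_finset]
  congr 1
  ext p
  simp only [Set.mem_ofPred_eq, Finset.coe_filter, Finset.mem_range]
  rw [out_iff a b p ha h]
  constructor
  · rintro ⟨h1, h2⟩
    refine ⟨?_, h1, h2⟩
    have h3 : b * vv a b p ≤ b * a := Nat.mul_le_mul_left b (vv_lt a b p ha).le
    rw [mul_comm b a] at h3
    omega
  · rintro ⟨-, h1, h2⟩
    exact ⟨h1, h2⟩

theorem piStar_ge (a b : ℕ) (ha : 2 ≤ a) (hab : a < b) (h : a.Coprime b) :
    ThOut a b (a * b) / Real.log (a * b : ℝ) +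
      Real.log 2 * ThOut a b (a * b / 2) / Real.log (a * b : ℝ) ^ 2 ≤ (piStar a b : ℝ) := by
  have hx : 2 ≤ a * b := by nlinarith
  have e0 : ((a : ℝ) * b) = ((a * b : ℕ) : ℝ) := by push_cast; ring
  rw [e0, s2_card a b (by omega) h]
  have e1 : ThOut a b (a * b / 2) =
      ∑ n ∈ (range (a * b + 1)).filter (fun n => n.Prime ∧ n < b * vv a b n),
        (if n ≤ a * b / 2 then Real.log n else 0) := by
    unfold ThOut
    rw [← Finset.sum_filter, Finset.filter_filter]
    refine sum_congr ?_ fun _ _ => rfl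
    ext n
    simp only [mem_filter, mem_range]
    constructor
    · rintro ⟨h1, h2, h3⟩
      exact ⟨by omega, ⟨h2, h3⟩, by omega⟩
    · rintro ⟨h1, ⟨h2, h3⟩, h4⟩
      exact ⟨by omega, h2, h3⟩
  rw [e1]
  unfold ThOut
  rw [Finset.mul_sum, Finset.sum_div, Finset.sum_div, ← Finset.sum_add_distrib]
  rw [Finset.card_eq_sum_ones, Nat.cast_sum]
  refine sum_le_sum fun n hn => ?_
  rw [mem_filter, mem_range] at hn
  obtain ⟨h1, h2, h3⟩ := hn
  have h4 := s2_pt (a * b) n hx h2.one_lt.le (by omega)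
  rw [Nat.cast_one]
  refine le_trans (le_of_eq ?_) h4
  congr 1
  by_cases h5 : n ≤ a * b / 2
  · rw [if_pos h5, if_pos h5]
  · rw [if_neg h5, if_neg h5, mul_zero, zero_div]

end Pool.Agent.SGP
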